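import Pool.Agent.X306.CV.Eig

set_option autoImplicit false
set_option linter.unusedVariables false
set_option linter.unusedSectionVars false
set_option linter.unusedSimpArgs false

/-!
# The elements of the Lie algebra and their components of degree at most one
-/

open Matrix Module

noncomputable section

namespace Pool.Agent.X306.CV

open Pool.Agent.W516.DR Pool.Agent.W245.EB Pool.Agent.Y102
open Pool.Agent.TH127.PT Pool.Agent.TH119.DR Pool.Agent.Y123.ST
open Pool.Agent.X306.EM (QB_iff QQ mem_QQ)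
open Pool.Agent.X306.RL (LL_br derD)
open Pool.Agent.X306.MT
open Pool.Agent.X306.MZ (InK)

variable {B R S I : Type} [Fintype B] [DecidableEq B] [Fintype R] [DecidableEq R] [Fintype I] [DecidableEq I]
  {d : B → ℕ} {o : B} {N : S → Matrix B B ℂ} {C : Matrix B B ℂ} {NB : I → Matrix B B ℂ}
  {T : Set (Matrix (B ⊕ (B × R)) (B ⊕ (B × R)) ℂ)}

/-- the elements -/
def qt (Y : Matrix B B ℂ) (V : R → Matrix B B ℂ) : Matrix (B ⊕ (B × R)) (B ⊕ (B × R)) ℂ :=
  fromBlocks Y 0 0 (blockDiagonal fun r => Y + V r)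

theorem qt_zero : qt (0 : Matrix B B ℂ) (0 : R → Matrix B B ℂ) = 0 := by
  unfold qt
  have h : (fun r : R => (0 : Matrix B B ℂ) + (0 : R → Matrix B B ℂ) r) = 0 := by
    funext r
    rw [zero_add]
  rw [h, blockDiagonal_zero, fromBlocks_zero]

theorem qt_add (Y Y' : Matrix B B ℂ) (V V' : R → Matrix B B ℂ) : qt (Y + Y') (V + V') = qt Y V + qt Y' V' := by
  unfold qt
  rw [fromBlocks_add, add_zero, add_zero, ← blockDiagonal_add]
  congr 2
  funext r
  simp only [Pi.add_apply]
  abel

theorem qt_smul (a : ℂ) (Y : Matrix B B ℂ) (V : R → Matrix B B ℂ) : qt (a • Y) (a • V) = a • qt Y V := by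
  unfold qt
  rw [fromBlocks_smul, smul_zero, smul_zero, ← blockDiagonal_smul]
  congr 2
  funext r
  simp only [Pi.smul_apply, smul_add]

theorem qt_br (Y Y' : Matrix B B ℂ) (V V' : R → Matrix B B ℂ) : qt Y V * qt Y' V' - qt Y' V' * qt Y V =
    qt (Y * Y' - Y' * Y) (fun r => (Y * V' r - V' r * Y) - (Y' * V r - V r * Y') + (V r * V' r - V' r * V r)) := by
  unfold qt
  rw [fromBlocks_multiply, fromBlocks_multiply, sub_eq_add_neg, fromBlocks_neg, fromBlocks_add]
  simp only [Matrix.mul_zero, Matrix.zero_mul, add_zero, zero_add, neg_zero, ← blockDiagonal_mul, ← blockDiagonal_neg,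
    ← blockDiagonal_add]
  congr 2
  funext r
  simp only [Pi.add_apply, Pi.neg_apply, Matrix.mul_add, Matrix.add_mul]
  abel

/-- the elements with given components of degree at most one -/
structure Ad (T : Set (Matrix (B ⊕ (B × R)) (B ⊕ (B × R)) ℂ)) (d : B → ℕ) (o : B) (C : Matrix B B ℂ)
    (N : S → Matrix B B ℂ) (NB : I → Matrix B B ℂ) (X : Matrix I I ℂ) (y : R → I → ℂ)
    (Y : Matrix B B ℂ) (V : R → Matrix B B ℂ) : Prop where
  mem : fl (qt Y V) ∈ LL T
  nor : Y ∈ Nor C N
  bet : ∀ r, V r ∈ nB C N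
  low : Y ∈ Ge d 0
  one : ∀ b b', d b' = d b + 1 → Y b b' = 0
  ori : ∀ b, d b = 0 → Y o b = 0
  com : ∀ j, Y * NB j - NB j * Y + nbv NB (X j) ∈ Ge d 2
  two : ∀ r, V r - nbv NB (y r) ∈ Ge d 2

theorem com_w {X : Matrix I I ℂ} {Y : Matrix B B ℂ} (h : ∀ j, Y * NB j - NB j * Y + nbv NB (X j) ∈ Ge d 2) (w : I → ℂ) :
    Y * nbv NB w - nbv NB w * Y + nbv NB (w ᵥ* X) ∈ Ge d 2 := by
  have h1 : Y * nbv NB w - nbv NB w * Y + nbv NB (w ᵥ* X) =
      ∑ j, w j • (Y * NB j - NB j * Y + nbv NB (X j)) := by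
    have h2 : nbv NB (w ᵥ* X) = ∑ j, w j • nbv NB (X j) := by
      have h3 : w ᵥ* X = ∑ j, w j • X j := by
        funext i
        rw [Finset.sum_apply]
        rfl
      rw [h3]
      have h4 : ∀ s : Finset I, nbv NB (∑ j ∈ s, w j • X j) = ∑ j ∈ s, w j • nbv NB (X j) := by
        intro s
        induction s using Finset.induction_on with
        | empty => rw [Finset.sum_empty, Finset.sum_empty, nbv_zero]
        | insert a s ha ih => rw [Finset.sum_insert ha, Finset.sum_insert ha, nbv_add, nbv_smul, ih]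
      exact h4 _
    rw [h2]
    conv_lhs => unfold nbv
    rw [Finset.mul_sum, Finset.sum_mul, ← Finset.sum_sub_distrib, ← Finset.sum_add_distrib]
    refine Finset.sum_congr rfl fun j _ => ?_
    rw [Matrix.mul_smul, Matrix.smul_mul, smul_add, smul_sub]
    rfl
  rw [h1]
  exact (Ge d 2).sum_mem fun j _ => (Ge d 2).smul_mem _ (h j)

theorem Ad.zero : Ad T d o C N NB 0 0 0 0 where
  mem := by
    rw [qt_zero, fl_zero]
    exact (LL T).zero_mem
  nor := (Nor C N).zero_mem
  bet := fun r => (nB C N).zero_mem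
  low := (Ge d 0).zero_mem
  one := fun b b' h => rfl
  ori := fun b h => rfl
  com := fun j => by
    have h : nbv NB ((0 : Matrix I I ℂ) j) = 0 := nbv_zero NB
    rw [h, Matrix.zero_mul, Matrix.mul_zero, sub_zero, add_zero]
    exact (Ge d 2).zero_mem
  two := fun r => by
    have h : nbv NB ((0 : R → I → ℂ) r) = 0 := nbv_zero NB
    rw [h, sub_zero]
    exact (Ge d 2).zero_mem

variable {X X' : Matrix I I ℂ} {y y' : R → I → ℂ} {Y Y' : Matrix B B ℂ} {V V' : R → Matrix B B ℂ}

theorem Ad.add (h : Ad T d o C N NB X y Y V) (h' : Ad T d o C N NB X' y' Y' V') :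
    Ad T d o C N NB (X + X') (y + y') (Y + Y') (V + V') where
  mem := by
    rw [qt_add, fl_add]
    exact (LL T).add_mem h.mem h'.mem
  nor := (Nor C N).add_mem h.nor h'.nor
  bet := fun r => (nB C N).add_mem (h.bet r) (h'.bet r)
  low := (Ge d 0).add_mem h.low h'.low
  one := fun b b' hb => by rw [Matrix.add_apply, h.one b b' hb, h'.one b b' hb, add_zero]
  ori := fun b hb => by rw [Matrix.add_apply, h.ori b hb, h'.ori b hb, add_zero]
  com := fun j => by
    refine (congrArg (· ∈ Ge d 2) ?_).mp ((Ge d 2).add_mem (h.com j) (h'.com j))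
    have h1 : nbv NB ((X + X') j) = nbv NB (X j) + nbv NB (X' j) := nbv_add NB _ _
    rw [h1, Matrix.add_mul, Matrix.mul_add]
    abel
  two := fun r => by
    refine (congrArg (· ∈ Ge d 2) ?_).mp ((Ge d 2).add_mem (h.two r) (h'.two r))
    rw [Pi.add_apply, Pi.add_apply, nbv_add]
    abel

theorem Ad.smul (a : ℂ) (h : Ad T d o C N NB X y Y V) : Ad T d o C N NB (a • X) (a • y) (a • Y) (a • V) where
  mem := by
    rw [qt_smul, fl_smul]
    exact (LL T).smul_mem a h.mem
  nor := (Nor C N).smul_mem a h.nor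
  bet := fun r => (nB C N).smul_mem a (h.bet r)
  low := (Ge d 0).smul_mem a h.low
  one := fun b b' hb => by rw [Matrix.smul_apply, h.one b b' hb, smul_zero]
  ori := fun b hb => by rw [Matrix.smul_apply, h.ori b hb, smul_zero]
  com := fun j => by
    refine (congrArg (· ∈ Ge d 2) ?_).mp ((Ge d 2).smul_mem a (h.com j))
    have h1 : nbv NB ((a • X) j) = a • nbv NB (X j) := nbv_smul NB _ _
    rw [h1, Matrix.smul_mul, Matrix.mul_smul, smul_add, smul_sub]
  two := fun r => by
    refine (congrArg (· ∈ Ge d 2) ?_).mp ((Ge d 2).smul_mem a (h.two r))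
    rw [Pi.smul_apply, Pi.smul_apply, nbv_smul, smul_sub]

/-- linear maps -/
theorem Ad.map {K : Subfield ℂ} (hdef : DefOver K (LL T)) (hB : DefK K C N) (hNB : ∀ j, InK K (NB j))
    (h : Ad T d o C N NB X y Y V) (f : ℂ →ₗ[K] ℂ) :
    Ad T d o C N NB (X.map f) (fun r j => f (y r j)) (Y.map f) (fun r => (V r).map f) where
  mem := by
    have h4 := hdef.map f h.mem
    have h5 : fl ((qt Y V).map f) ∈ LL T := h4
    refine (congrArg (fun X => fl X ∈ LL T) ?_).mp h5
    unfold qt
    rw [fromBlocks_map, blockDiagonal_map _ _ (map_zero f)]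
    congr 1
    · ext b b'
      exact map_zero f
    · ext b b'
      exact map_zero f
    · congr 1
      funext r
      ext b b'
      exact map_add f _ _
  nor := Nor_map hB h.nor f
  bet := fun r => nB_map hB (h.bet r) f
  low := fun b b' hb => by rw [Matrix.map_apply, h.low b b' hb, map_zero]
  one := fun b b' hb => by rw [Matrix.map_apply, h.one b b' hb, map_zero]
  ori := fun b hb => by rw [Matrix.map_apply, h.ori b hb, map_zero]
  com := fun j => by
    intro b b' hb
    have h1 := congrArg f (h.com j b b' hb)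
    rw [map_zero] at h1
    rw [← h1]
    simp only [nbv, Matrix.add_apply, Matrix.sub_apply, Matrix.mul_apply, Matrix.sum_apply, Matrix.smul_apply,
      Matrix.map_apply, map_add, map_sub, map_sum, smul_eq_mul]
    congr 1
    · congr 1
      · exact Finset.sum_congr rfl fun c _ => (fK_mul f _ (hNB j _ _)).symm
      · exact Finset.sum_congr rfl fun c _ => (fK_mul' f _ (hNB j _ _)).symm
    · exact Finset.sum_congr rfl fun c _ => (fK_mul f _ (hNB c _ _)).symm
  two := fun r => by
    intro b b' hb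
    have h1 := congrArg f (h.two r b b' hb)
    rw [map_zero] at h1
    rw [← h1]
    simp only [nbv, Matrix.sub_apply, Matrix.sum_apply, Matrix.smul_apply, Matrix.map_apply, map_sub, map_sum,
      smul_eq_mul]
    congr 1
    exact Finset.sum_congr rfl fun c _ => (fK_mul f _ (hNB c _ _)).symm

/-- the leading part of a commutator -/
theorem br_two {w : I → ℂ} {X : Matrix I I ℂ} {Y V : Matrix B B ℂ} (hY : Y ∈ Ge d 0)
    (h : ∀ j, Y * NB j - NB j * Y + nbv NB (X j) ∈ Ge d 2) (hV : V - nbv NB w ∈ Ge d 2) :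
    Y * V - V * Y + nbv NB (w ᵥ* X) ∈ Ge d 2 := by
  have h1 := Ge_br hY hV
  rw [zero_add] at h1
  have h2 := (Ge d 2).add_mem h1 (com_w h w)
  refine (congrArg (· ∈ Ge d 2) ?_).mp h2
  rw [Matrix.mul_sub, Matrix.sub_mul]
  abel

theorem Ad.br (hC : Bi d C) (hN : Deg1 d N) (h : Ad T d o C N NB X y Y V)
    (h' : Ad T d o C N NB X' y' Y' V') :
    Ad T d o C N NB (X * X' - X' * X) (fun r => y r ᵥ* X' - y' r ᵥ* X) (Y * Y' - Y' * Y)
      (fun r => (Y * V' r - V' r * Y) - (Y' * V r - V r * Y') + (V r * V' r - V' r * V r)) where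
  mem := by
    rw [← qt_br]
    exact LL_br h.mem h'.mem
  nor := Nor_br h.nor h'.nor
  bet := fun r => (nB C N).add_mem ((nB C N).sub_mem (h.nor _ (h'.bet r)) (h'.nor _ (h.bet r)))
    (nB_br hC (h.bet r) (h'.bet r))
  low := by
    have := Ge_br h.low h'.low
    rwa [add_zero] at this
  one := by
    have key : ∀ {P Q : Matrix B B ℂ}, P ∈ Ge d 0 → Q ∈ Ge d 0 → (∀ b b', d b' = d b + 1 → P b b' = 0) →
        (∀ b b', d b' = d b + 1 → Q b b' = 0) → ∀ b b', d b' = d b + 1 → (P * Q) b b' = 0 := by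
      intro P Q h1 h2 h3 h4 b b' hb
      rw [Matrix.mul_apply]
      refine Finset.sum_eq_zero fun c _ => ?_
      rcases lt_trichotomy (d c) (d b) with h5 | h5 | h5
      · rw [h1 b c (by omega), zero_mul]
      · rw [h4 c b' (by omega), mul_zero]
      · by_cases h6 : d c = d b + 1
        · rw [h3 b c h6, zero_mul]
        · rw [h2 c b' (by omega), mul_zero]
    intro b b' hb
    rw [Matrix.sub_apply, key h.low h'.low h.one h'.one b b' hb, key h'.low h.low h'.one h.one b b' hb, sub_zero]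
  ori := by
    have key : ∀ {P Q : Matrix B B ℂ}, Q ∈ Ge d 0 → (∀ b, d b = 0 → P o b = 0) → ∀ b, d b = 0 → (P * Q) o b = 0 := by
      intro P Q h1 h2 b hb
      rw [Matrix.mul_apply]
      refine Finset.sum_eq_zero fun c _ => ?_
      by_cases hc : d c = 0
      · rw [h2 c hc, zero_mul]
      · rw [h1 c b (by omega), mul_zero]
    intro b hb
    rw [Matrix.sub_apply, key h'.low h.ori b hb, key h.low h'.ori b hb, sub_zero]
  com := fun j => by
    have e1 := Ge_br h.low (h'.com j)
    have e2 := Ge_br h'.low (h.com j)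
    rw [zero_add] at e1 e2
    have e3 := com_w h.com (X' j)
    have e4 := com_w h'.com (X j)
    have e5 := (Ge d 2).add_mem ((Ge d 2).sub_mem e1 e2) ((Ge d 2).sub_mem e4 e3)
    refine (congrArg (· ∈ Ge d 2) ?_).mp e5
    have e6 : (X * X' - X' * X) j = X j ᵥ* X' - X' j ᵥ* X := by
      funext i
      rfl
    rw [e6, nbv_sub]
    simp only [Matrix.mul_add, Matrix.add_mul, Matrix.mul_sub, Matrix.sub_mul, Matrix.mul_assoc]
    abel
  two := fun r => by
    have e1 := br_two h.low h.com (h'.two r)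
    have e2 := br_two h'.low h'.com (h.two r)
    have e3 := Ge_br (nB_Ge hC hN (h.bet r)) (nB_Ge hC hN (h'.bet r))
    have e4 := (Ge d 2).add_mem ((Ge d 2).sub_mem e1 e2) e3
    refine (congrArg (· ∈ Ge d 2) ?_).mp e4
    rw [nbv_sub]
    abel

end Pool.Agent.X306.CV
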