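import Pool.Agent.X306.MT.Main
import Pool.Agent.X306.MZ.Rat
import Pool.Agent.X306.AV.Grp

set_option autoImplicit false
set_option linter.unusedVariables false
set_option linter.unusedSectionVars false
set_option linter.unusedSimpArgs false

/-!
# Triangular matrices with arbitrary diagonal blocks, and the Betti form of a Lie algebra
-/

open Matrix Module

noncomputable section

namespace Pool.Agent.X306.CV

open Pool.Agent.W516.DR Pool.Agent.W245.EB Pool.Agent.Y102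
open Pool.Agent.X306.EM (QB_iff QQ mem_QQ)
open Pool.Agent.X306.MT
open Pool.Agent.X306.MZ (InK)

variable {B S : Type} [Fintype B] [DecidableEq B] {d : B → ℕ} {N : S → Matrix B B ℂ} {C : Matrix B B ℂ}

/-- an invertible matrix which respects the filtration, as its inverse -/
structure Bi (d : B → ℕ) (C : Matrix B B ℂ) : Prop where
  u : IsUnit C
  m : C ∈ Ge d 0
  m' : C⁻¹ ∈ Ge d 0

theorem Bi.mul_inv (h : Bi d C) : C * C⁻¹ = 1 :=
  Matrix.mul_nonsing_inv _ ((Matrix.isUnit_iff_isUnit_det _).1 h.u)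

theorem Bi.inv_mul (h : Bi d C) : C⁻¹ * C = 1 :=
  Matrix.nonsing_inv_mul _ ((Matrix.isUnit_iff_isUnit_det _).1 h.u)

theorem Bi.conj_mem (h : Bi d C) {k : ℕ} {X : Matrix B B ℂ} (hX : X ∈ Ge d k) : C * X * C⁻¹ ∈ Ge d k := by
  have := Ge_mul (Ge_mul h.m hX) h.m'
  rwa [add_zero, zero_add] at this

theorem Bi.conj_mem' (h : Bi d C) {k : ℕ} {X : Matrix B B ℂ} (hX : X ∈ Ge d k) : C⁻¹ * X * C ∈ Ge d k := by
  have := Ge_mul (Ge_mul h.m' hX) h.m
  rwa [add_zero, zero_add] at this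

/-- a triangular invertible matrix -/
theorem Bi.of_low (hu : IsUnit C) (hm : C ∈ Ge d 0) : Bi d C := by
  refine ⟨hu, hm, ?_⟩
  have h1 : C.BlockTriangular d := fun b b' h => hm b b' (by simpa using h)
  haveI : Invertible C := hu.invertible
  have h2 := Matrix.blockTriangular_inv_of_blockTriangular h1
  intro b b' h
  exact h2 (by simpa using h)

theorem conj_nB (hC : Bi d C) {x : Matrix B B ℂ} (hx : x ∈ nn N) : C * x * C⁻¹ ∈ nB C N := by
  rw [mem_nB]
  have h1 : C⁻¹ * (C * x * C⁻¹) * C = (C⁻¹ * C) * x * (C⁻¹ * C) := by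
    simp only [Matrix.mul_assoc]
  rw [h1, hC.inv_mul, Matrix.one_mul, Matrix.mul_one]
  exact hx

theorem nB_conj (hC : Bi d C) (M : Matrix B B ℂ) : C * (C⁻¹ * M * C) * C⁻¹ = M := by
  have h1 : C * (C⁻¹ * M * C) * C⁻¹ = (C * C⁻¹) * M * (C * C⁻¹) := by
    simp only [Matrix.mul_assoc]
  rw [h1, hC.mul_inv, Matrix.one_mul, Matrix.mul_one]

theorem nB_br (hC : Bi d C) {X Y : Matrix B B ℂ} (hX : X ∈ nB C N) (hY : Y ∈ nB C N) :
    X * Y - Y * X ∈ nB C N := by
  rw [mem_nB] at hX hY ⊢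
  have h1 := nn_br hX hY
  refine (congrArg (· ∈ nn N) ?_).mp h1
  have h2 : ∀ X Y : Matrix B B ℂ, (C⁻¹ * X * C) * (C⁻¹ * Y * C) = C⁻¹ * (X * Y) * C := by
    intro X Y
    have h3 : (C⁻¹ * X * C) * (C⁻¹ * Y * C) = C⁻¹ * X * (C * C⁻¹) * (Y * C) := by
      simp only [Matrix.mul_assoc]
    rw [h3, hC.mul_inv, Matrix.mul_one]
    simp only [Matrix.mul_assoc]
  rw [h2, h2, Matrix.mul_sub, Matrix.sub_mul]

theorem nB_Ge (hC : Bi d C) (hN : Deg1 d N) {M : Matrix B B ℂ} (hM : M ∈ nB C N) : M ∈ Ge d 1 := by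
  have h1 := hC.conj_mem (nn_Ge hN hM)
  rwa [nB_conj hC] at h1

/-- the Betti form is defined over `K` -/
def DefK (K : Subfield ℂ) (C : Matrix B B ℂ) (N : S → Matrix B B ℂ) : Prop :=
  ∀ M ∈ nB C N, M ∈ Submodule.span ℂ {M' : Matrix B B ℂ | M' ∈ nB C N ∧ InK K M'}

variable {K : Subfield ℂ}

theorem fK_mul (f : ℂ →ₗ[K] ℂ) (z : ℂ) {a : ℂ} (ha : a ∈ K) : f (z * a) = f z * a := by
  have h1 : z * a = (⟨a, ha⟩ : K) • z := mul_comm z a
  rw [h1, map_smul]
  exact mul_comm a (f z)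

theorem fK_mul' (f : ℂ →ₗ[K] ℂ) (z : ℂ) {a : ℂ} (ha : a ∈ K) : f (a * z) = a * f z := by
  rw [mul_comm, fK_mul f z ha, mul_comm]

/-- the Betti form is closed under linear maps over `K` -/
theorem nB_map (hB : DefK K C N) {M : Matrix B B ℂ} (hM : M ∈ nB C N) (f : ℂ →ₗ[K] ℂ) : M.map f ∈ nB C N := by
  have h1 := hB M hM
  clear hM
  induction h1 using Submodule.span_induction generalizing f with
  | mem M hM =>
    have h2 : M.map f = f 1 • M := by
      ext b b'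
      rw [Matrix.map_apply, Matrix.smul_apply, smul_eq_mul, ← fK_mul f 1 (hM.2 b b'), one_mul]
    rw [h2]
    exact (nB C N).smul_mem _ hM.1
  | zero =>
    have h2 : (0 : Matrix B B ℂ).map f = 0 := by
      ext b b'
      exact map_zero f
    rw [h2]
    exact (nB C N).zero_mem
  | add M M' _ _ h2 h3 =>
    have h4 : (M + M').map f = M.map f + M'.map f := by
      ext b b'
      simp only [Matrix.map_apply, Matrix.add_apply, map_add]
    rw [h4]
    exact (nB C N).add_mem (h2 f) (h3 f)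
  | smul a M _ h2 =>
    have h4 : (a • M).map f = M.map (f.comp (LinearMap.mulLeft K a)) := by
      ext b b'
      rfl
    rw [h4]
    exact h2 _

theorem Nor_of_K (hB : DefK K C N) {Y : Matrix B B ℂ} (h : ∀ M ∈ nB C N, InK K M → Y * M - M * Y ∈ nB C N) :
    Y ∈ Nor C N := by
  rw [mem_Nor]
  intro M hM
  have h1 := hB M hM
  clear hM
  induction h1 using Submodule.span_induction with
  | mem M hM => exact h M hM.1 hM.2
  | zero =>
    rw [Matrix.mul_zero, Matrix.zero_mul, sub_zero]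
    exact (nB C N).zero_mem
  | add M M' _ _ h2 h3 =>
    refine (congrArg (· ∈ nB C N) ?_).mp ((nB C N).add_mem h2 h3)
    rw [Matrix.mul_add, Matrix.add_mul]
    abel
  | smul a M _ h2 =>
    refine (congrArg (· ∈ nB C N) ?_).mp ((nB C N).smul_mem a h2)
    rw [Matrix.mul_smul, Matrix.smul_mul, smul_sub]

theorem Nor_map (hB : DefK K C N) {Y : Matrix B B ℂ} (hY : Y ∈ Nor C N) (f : ℂ →ₗ[K] ℂ) : Y.map f ∈ Nor C N := by
  refine Nor_of_K hB fun M hM hA => ?_
  have h1 := nB_map hB (hY M hM) f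
  refine (congrArg (· ∈ nB C N) ?_).mp h1
  ext b b'
  simp only [Matrix.map_apply, Matrix.sub_apply, Matrix.mul_apply, map_sub, map_sum]
  congr 1
  · exact Finset.sum_congr rfl fun c _ => fK_mul f _ (hA _ _)
  · exact Finset.sum_congr rfl fun c _ => fK_mul' f _ (hA _ _)

/-- the logarithmic derivative lies in the normalizer -/
theorem Nor_der (hC : Bi d C) (hA : ∀ s, AlgM (N s)) (hB : DefK K C N) (hK : K ≤ QB) (D : Derivation QBar ℂ ℂ) :
    C.map D * C⁻¹ ∈ Nor C N := by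
  refine Nor_of_K hB fun M hM hMK => ?_
  have hMA : AlgM M := fun b b' => (QB_iff _).2 (hK (hMK b b'))
  set D' : Derivation ℚ ℂ ℂ := D.restrictScalars ℚ with hD'
  have hmap : ∀ X : Matrix B B ℂ, X.map D = X.map D' := fun X => rfl
  rw [hmap]
  set x : Matrix B B ℂ := C⁻¹ * M * C with hx
  have hxm : x ∈ nn N := hM
  have h1 : M * C = C * x := by
    rw [hx, ← Matrix.mul_assoc, ← Matrix.mul_assoc, hC.mul_inv, Matrix.one_mul]
  have h2 : (M * C).map D' = (C * x).map D' := by rw [h1]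
  rw [map_mul_D, map_mul_D] at h2
  have h3 : M.map D' = 0 := by
    ext b b'
    exact D_alg D (hMA b b')
  rw [h3, Matrix.zero_mul, zero_add] at h2
  have h4 : x.map D' ∈ nn N := nn_der D' (fun s b b' => D_alg D (hA s b b')) hxm
  have h5 := (nB C N).neg_mem (conj_nB hC h4)
  refine (congrArg (· ∈ nB C N) ?_).mp h5
  have h6 : x * C⁻¹ = C⁻¹ * M := by
    rw [hx, Matrix.mul_assoc, hC.mul_inv, Matrix.mul_one]
  have h7 : M * (C.map D' * C⁻¹) = C.map D' * C⁻¹ * M + C * x.map D' * C⁻¹ := by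
    rw [← Matrix.mul_assoc, h2, Matrix.add_mul, Matrix.mul_assoc _ x, h6, Matrix.mul_assoc, Matrix.mul_assoc]
  rw [h7]
  abel

/-- a Lie algebra which contains approximations of the generators is the whole Lie algebra -/
theorem approx (hN : Deg1 d N) {𝔪 : Submodule ℂ (Matrix B B ℂ)} (hbr : ∀ x ∈ 𝔪, ∀ y ∈ 𝔪, x * y - y * x ∈ 𝔪)
    (hs : ∀ s, ∃ V ∈ 𝔪, V - N s ∈ Ge d 2) (k : ℕ)
    {x : Matrix B B ℂ} (hx : x ∈ qq N k) : ∃ V ∈ 𝔪, V - x ∈ Ge d (k + 2) := by
  have hadd : ∀ (k : ℕ) (x y : Matrix B B ℂ), (∃ V ∈ 𝔪, V - x ∈ Ge d (k + 2)) →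
      (∃ V ∈ 𝔪, V - y ∈ Ge d (k + 2)) → ∃ V ∈ 𝔪, V - (x + y) ∈ Ge d (k + 2) := by
    rintro k x y ⟨V, h1, h2⟩ ⟨V', h3, h4⟩
    refine ⟨V + V', 𝔪.add_mem h1 h3, (congrArg (· ∈ Ge d (k + 2)) ?_).mp ((Ge d (k + 2)).add_mem h2 h4)⟩
    abel
  have hsmul : ∀ (k : ℕ) (a : ℂ) (x : Matrix B B ℂ), (∃ V ∈ 𝔪, V - x ∈ Ge d (k + 2)) →
      ∃ V ∈ 𝔪, V - a • x ∈ Ge d (k + 2) := by
    rintro k a x ⟨V, h1, h2⟩
    refine ⟨a • V, 𝔪.smul_mem a h1, (congrArg (· ∈ Ge d (k + 2)) ?_).mp ((Ge d (k + 2)).smul_mem a h2)⟩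
    rw [smul_sub]
  have hzero : ∀ k : ℕ, ∃ V ∈ 𝔪, V - 0 ∈ Ge d (k + 2) := by
    intro k
    refine ⟨0, 𝔪.zero_mem, ?_⟩
    rw [sub_zero]
    exact (Ge d _).zero_mem
  induction k generalizing x with
  | zero =>
    have h1 : x ∈ Submodule.span ℂ (Set.range N) := hx
    clear hx
    induction h1 using Submodule.span_induction with
    | mem x hx =>
      obtain ⟨s, rfl⟩ := hx
      exact hs s
    | zero => exact hzero 0
    | add x y _ _ h2 h3 => exact hadd 0 x y h2 h3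
    | smul a x _ h2 => exact hsmul 0 a x h2
  | succ k ih =>
    have h1 : x ∈ Submodule.span ℂ {z | ∃ s, ∃ y ∈ qq N k, z = N s * y - y * N s} := hx
    clear hx
    induction h1 using Submodule.span_induction with
    | mem x hx =>
      obtain ⟨s, y, hy, rfl⟩ := hx
      obtain ⟨V, h1, h2⟩ := hs s
      obtain ⟨V', h3, h4⟩ := ih hy
      refine ⟨V * V' - V' * V, hbr _ h1 _ h3, ?_⟩
      have hV'1 : V' ∈ Ge d (k + 1) := by
        have h5 := (Ge d (k + 1)).add_mem (Ge_mono (by omega) h4) (qq_Ge hN k hy)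
        rwa [sub_add_cancel] at h5
      have hNs : N s ∈ Ge d 1 := qq_Ge hN 0 (Submodule.subset_span ⟨s, rfl⟩)
      have h5 : (V - N s) * V' - V' * (V - N s) ∈ Ge d (k + 1 + 2) := by
        have h6 := Ge_br h2 hV'1
        have h7 : 2 + (k + 1) = k + 1 + 2 := by omega
        rwa [h7] at h6
      have h6 : N s * (V' - y) - (V' - y) * N s ∈ Ge d (k + 1 + 2) := by
        have h6 := Ge_br hNs h4
        have h7 : 1 + (k + 2) = k + 1 + 2 := by omega
        rwa [h7] at h6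
      refine (congrArg (· ∈ Ge d (k + 1 + 2)) ?_).mp ((Ge d _).add_mem h5 h6)
      simp only [Matrix.sub_mul, Matrix.mul_sub]
      abel
    | zero => exact hzero _
    | add x y _ _ h2 h3 => exact hadd _ x y h2 h3
    | smul a x _ h2 => exact hsmul _ a x h2

theorem full (hN : Deg1 d N) {𝔪 : Submodule ℂ (Matrix B B ℂ)} (hle : 𝔪 ≤ nn N)
    (hbr : ∀ x ∈ 𝔪, ∀ y ∈ 𝔪, x * y - y * x ∈ 𝔪)
    (hs : ∀ s, ∃ V ∈ 𝔪, V - N s ∈ Ge d 2) : nn N ≤ 𝔪 := by
  have key : ∀ e k : ℕ, top d ≤ k + 1 + e → ∀ V ∈ nn N, V ∈ Ge d (k + 1) → V ∈ 𝔪 := by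
    intro e
    induction e with
    | zero =>
      intro k hk V h1 h2
      rw [Ge_top (by omega) h2]
      exact 𝔪.zero_mem
    | succ e ih =>
      intro k hk V h1 h2
      obtain ⟨V', h4, h5⟩ := approx hN hbr hs k (nn_pr hN k h1)
      have h7 : V - V' ∈ Ge d (k + 1 + 1) := by
        have h8 := (Ge d (k + 1 + 1)).sub_mem (sub_pr h2) h5
        refine (congrArg (· ∈ Ge d (k + 1 + 1)) ?_).mp h8
        abel
      have h8 := ih (k + 1) (by omega) (V - V') ((nn N).sub_mem h1 (hle h4)) h7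
      have h9 := 𝔪.add_mem h8 h4
      rwa [sub_add_cancel] at h9
  exact fun V hV => key (top d) 0 (by omega) V hV (nn_Ge hN hV)

end Pool.Agent.X306.CV
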