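import Pool.Agent.X306.CV.Adm

set_option autoImplicit false
set_option linter.unusedVariables false
set_option linter.unusedSectionVars false
set_option linter.unusedSimpArgs false

/-!
# The logarithmic derivatives
-/

open Matrix Module

noncomputable section

namespace Pool.Agent.X306.CV

open Pool.Agent.W516.DR Pool.Agent.W245.EB Pool.Agent.Y102
open Pool.Agent.TH127.PT Pool.Agent.TH119.DR Pool.Agent.Y123.ST
open Pool.Agent.X306.EM (QB_iff QQ mem_QQ)
open Pool.Agent.X306.RL (LL_br derD LL_defF GDef)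
open Pool.Agent.X306.MT
open Pool.Agent.X306.MZ (InK)

variable {B R I : Type} [Fintype B] [DecidableEq B] [Fintype R] [DecidableEq R] [Fintype I] [DecidableEq I]
  {d : B → ℕ} {o : B} {N : I → Matrix B B ℂ} {C : Matrix B B ℂ} {NB : I → Matrix B B ℂ}
  {T : Set (Matrix (B ⊕ (B × R)) (B ⊕ (B × R)) ℂ)} {P P' : Matrix I I ℂ}

/-- The shape of the period matrix of the fundamental group. -/
structure Fun (d : B → ℕ) (o : B) (N NB : I → Matrix B B ℂ) (C : Matrix B B ℂ) (P P' : Matrix I I ℂ) : Prop where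
  u : IsUnit C
  low : C ∈ Ge d 0
  one : ∀ b b', d b' = d b + 1 → C b b' = 0
  dgo : d o = 0
  uni : ∀ b, d b = 0 → b = o
  coo : C o o = 1
  hN : Deg1 d N
  hNB : Deg1 d NB
  alg : ∀ i, AlgM (N i)
  rat : ∀ i, InK QQ (NB i)
  lead : ∀ j, NB j * C - ∑ i, P j i • (C * N i) ∈ Ge d 2
  gen : ∀ b, b ≠ o → (Pi.single b 1 : B → ℂ) ∈ Submodule.span ℂ {v' | ∃ (v : B → ℂ) (i : I), v' = v ᵥ* NB i}
  bet : DefK QQ C N
  PP : P' * P = 1
  PP' : P * P' = 1

namespace Fun

variable (H : Fun d o N NB C P P')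
include H

theorem bi : Bi d C := Bi.of_low H.u H.low

theorem inv_one (b b' : B) (h : d b' = d b + 1) : C⁻¹ b b' = 0 := by
  have hb := H.bi
  set Q := C⁻¹ with hQ
  have h1 : C * pr d 1 Q ∈ Ge d 2 := by
    intro a a' ha
    rcases lt_or_ge (d a') (d a + 1) with h2 | h2
    · have h3 := Ge_mul hb.m (Gr_Ge (pr_Gr (d := d) 1 Q))
      rw [zero_add] at h3
      exact h3 a a' h2
    · have h3 : (C * Q) a a' = 0 := by
        rw [hb.mul_inv, Matrix.one_apply_ne]
        rintro rfl
        omega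
      rw [← h3, Matrix.mul_apply, Matrix.mul_apply]
      refine Finset.sum_congr rfl fun c _ => ?_
      rw [pr_apply]
      split_ifs with h4
      · rfl
      · rw [mul_zero]
        rcases lt_trichotomy (d c) (d a) with h5 | h5 | h5
        · rw [hb.m a c (by omega), zero_mul]
        · omega
        · by_cases h6 : d c = d a + 1
          · rw [H.one a c h6, zero_mul]
          · have h7 : Q c a' = 0 := hb.m' c a' (by omega)
            rw [h7, mul_zero]
  have h2 : pr d 1 Q = 0 := by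
    refine Gr_eq_zero (pr_Gr 1 Q) ?_
    have h3 := Ge_mul hb.m' h1
    rw [zero_add, ← Matrix.mul_assoc, hb.inv_mul, Matrix.one_mul] at h3
    exact h3
  have h3 := congrFun (congrFun h2 b) b'
  rw [pr_apply, if_pos h] at h3
  exact h3

theorem NB_eq (j : I) : NB j - ∑ i, P j i • (C * N i * C⁻¹) ∈ Ge d 2 := by
  have h1 := Ge_mul (H.lead j) H.bi.m'
  rw [add_zero] at h1
  refine (congrArg (· ∈ Ge d 2) ?_).mp h1
  rw [Matrix.sub_mul, Matrix.mul_assoc, H.bi.mul_inv, Matrix.mul_one, Finset.sum_mul]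
  congr 1
  exact Finset.sum_congr rfl fun i _ => Matrix.smul_mul _ _ _

theorem conjN (k : I) : C * N k * C⁻¹ - nbv NB (P' k) ∈ Ge d 2 := by
  have h1 : C * N k * C⁻¹ - nbv NB (P' k) = -∑ j, P' k j • (NB j - ∑ i, P j i • (C * N i * C⁻¹)) := by
    have h2 : C * N k * C⁻¹ = ∑ j, P' k j • ∑ i, P j i • (C * N i * C⁻¹) := by
      simp only [Finset.smul_sum, smul_smul]
      rw [Finset.sum_comm]
      have h3 : ∀ i, ∑ j, (P' k j * P j i) • (C * N i * C⁻¹) = (P' * P) k i • (C * N i * C⁻¹) := by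
        intro i
        rw [← Finset.sum_smul]
        rfl
      simp only [h3, H.PP]
      rw [Finset.sum_eq_single k]
      · rw [Matrix.one_apply_eq, one_smul]
      · intro i _ hi
        rw [Matrix.one_apply_ne (Ne.symm hi), zero_smul]
      · intro h
        exact absurd (Finset.mem_univ _) h
    simp only [smul_sub]
    rw [Finset.sum_sub_distrib, ← h2]
    unfold nbv
    abel
  rw [h1]
  exact (Ge d 2).neg_mem ((Ge d 2).sum_mem fun j _ => (Ge d 2).smul_mem _ (H.NB_eq j))

theorem conj_w (w : I → ℂ) : C * nbv N w * C⁻¹ - nbv NB (w ᵥ* P') ∈ Ge d 2 := by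
  have h1 : C * nbv N w * C⁻¹ - nbv NB (w ᵥ* P') = ∑ k, w k • (C * N k * C⁻¹ - nbv NB (P' k)) := by
    have h2 : nbv NB (w ᵥ* P') = ∑ k, w k • nbv NB (P' k) := by
      have h3 : w ᵥ* P' = ∑ j, w j • P' j := by
        funext i
        rw [Finset.sum_apply]
        rfl
      rw [h3]
      have h4 : ∀ s : Finset I, nbv NB (∑ j ∈ s, w j • P' j) = ∑ j ∈ s, w j • nbv NB (P' j) := by
        intro s
        induction s using Finset.induction_on with
        | empty => rw [Finset.sum_empty, Finset.sum_empty, nbv_zero]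
        | insert a s ha ih => rw [Finset.sum_insert ha, Finset.sum_insert ha, nbv_add, nbv_smul, ih]
      exact h4 _
    rw [h2]
    conv_lhs => rw [nbv]
    rw [Finset.mul_sum, Finset.sum_mul, ← Finset.sum_sub_distrib]
    refine Finset.sum_congr rfl fun j _ => ?_
    rw [Matrix.mul_smul, Matrix.smul_mul, smul_sub]
  rw [h1]
  exact (Ge d 2).sum_mem fun k _ => (Ge d 2).smul_mem _ (H.conjN k)

theorem der_com (D : Derivation QBar ℂ ℂ) (j : I) :
    (C.map D * C⁻¹) * NB j - NB j * (C.map D * C⁻¹) + nbv NB ((P.map D * P') j) ∈ Ge d 2 := by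
  set D' : Derivation ℚ ℂ ℂ := D.restrictScalars ℚ with hD'
  have hmap : ∀ X : Matrix B B ℂ, X.map D = X.map D' := fun X => rfl
  have hNB0 : (NB j).map D' = 0 := by
    ext b b'
    refine D_alg D ?_
    obtain ⟨q, hq⟩ := mem_QQ.1 (H.rat j b b')
    rw [← hq]
    exact isAlgebraic_algebraMap (R := ℚ) (A := ℂ) q
  have hN0 : ∀ i, (N i).map D' = 0 := fun i => by
    ext b b'
    exact D_alg D (H.alg i b b')
  have h1 : NB j * C.map D' - ∑ i, (D (P j i) • (C * N i) + P j i • (C.map D' * N i)) ∈ Ge d 2 := by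
    have h2 := map_Ge_D D (H.lead j)
    refine (congrArg (· ∈ Ge d 2) ?_).mp h2
    rw [hmap]
    have h3 : (NB j * C - ∑ i, P j i • (C * N i)).map D' =
        (NB j * C).map D' - (∑ i, P j i • (C * N i)).map D' := by
      ext b b'
      simp only [Matrix.map_apply, Matrix.sub_apply, map_sub]
    rw [h3, map_mul_D, hNB0, Matrix.zero_mul, zero_add, map_sum_D]
    congr 1
    refine Finset.sum_congr rfl fun i _ => ?_
    have h4 : (P j i • (C * N i)).map D' = D' (P j i) • (C * N i) + P j i • (C * N i).map D' := by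
      ext b b'
      simp only [Matrix.map_apply, Matrix.smul_apply, Matrix.add_apply, smul_eq_mul, Derivation.leibniz]
      ring
    rw [h4, map_mul_D, hN0, Matrix.mul_zero, add_zero]
    rfl
  have h2 := Ge_mul h1 H.bi.m'
  rw [add_zero] at h2
  set Y := C.map D' * C⁻¹ with hY
  have hlow : Y ∈ Ge d 0 := by
    have h3 := Ge_mul (map_Ge_D D H.low) H.bi.m'
    rw [add_zero] at h3
    exact h3
  have h3 : ∑ i, D (P j i) • (C * N i * C⁻¹ - nbv NB (P' i)) ∈ Ge d 2 :=
    (Ge d 2).sum_mem fun i _ => (Ge d 2).smul_mem _ (H.conjN i)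
  have h4 : Y * (NB j - ∑ i, P j i • (C * N i * C⁻¹)) ∈ Ge d 2 := by
    have h5 := Ge_mul hlow (H.NB_eq j)
    rwa [zero_add] at h5
  have h5 : nbv NB ((P.map D * P') j) = ∑ i, D (P j i) • nbv NB (P' i) := by
    have h6 : (P.map D * P') j = ∑ i, D (P j i) • P' i := by
      funext k
      rw [Finset.sum_apply]
      rfl
    rw [h6]
    have h7 : ∀ s : Finset I, nbv NB (∑ i ∈ s, D (P j i) • P' i) = ∑ i ∈ s, D (P j i) • nbv NB (P' i) := by
      intro s
      induction s using Finset.induction_on with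
      | empty => rw [Finset.sum_empty, Finset.sum_empty, nbv_zero]
      | insert a s ha ih => rw [Finset.sum_insert ha, Finset.sum_insert ha, nbv_add, nbv_smul, ih]
    exact h7 _
  have h6 := (Ge d 2).add_mem ((Ge d 2).sub_mem h4 h2) ((Ge d 2).neg_mem h3)
  refine (congrArg (· ∈ Ge d 2) ?_).mp h6
  rw [hmap, ← hY, h5]
  have h7 : (NB j * C.map D' - ∑ i, (D (P j i) • (C * N i) + P j i • (C.map D' * N i))) * C⁻¹ =
      NB j * Y - ∑ i, D (P j i) • (C * N i * C⁻¹) - Y * ∑ i, P j i • (C * N i * C⁻¹) := by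
    rw [Matrix.sub_mul, Finset.sum_mul, hY, Matrix.mul_assoc (NB j), sub_sub, Matrix.mul_sum, ← Finset.sum_add_distrib]
    congr 1
    refine Finset.sum_congr rfl fun i _ => ?_
    rw [Matrix.add_mul, Matrix.smul_mul, Matrix.smul_mul, Matrix.mul_smul]
    congr 2
    have h8 : C.map D' * C⁻¹ * (C * N i * C⁻¹) = C.map D' * (C⁻¹ * C) * (N i * C⁻¹) := by
      simp only [Matrix.mul_assoc]
    rw [h8, H.bi.inv_mul, Matrix.mul_one, Matrix.mul_assoc]
  rw [h7]
  simp only [smul_sub, Finset.sum_sub_distrib, Matrix.mul_sub]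
  abel

variable {l : R → I → ℂ} {ell : R → Matrix B B ℂ}

/-- the logarithmic derivatives -/
theorem der (hT : IsSubtorsor QB T) (hell : ∀ r, ell r ∈ nn N) (hell1 : ∀ r, ell r - nbv N (l r) ∈ Ge d 2)
    (hP : fromBlocks C 0 0 (blockDiagonal fun r => C * ex d (ell r)) ∈ T) (D : Derivation QBar ℂ ℂ) :
    ∃ Y V, Ad T d o C N NB (P.map D * P') (fun r => (fun i => D (l r i)) ᵥ* P') Y V := by
  set D' : Derivation ℚ ℂ ℂ := D.restrictScalars ℚ with hD'
  have hmap : ∀ X : Matrix B B ℂ, X.map D = X.map D' := fun X => rfl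
  have hb := H.bi
  have hDell : ∀ r, (ell r).map D' ∈ nn N := fun r => nn_der D' (fun s b b' => D_alg D (H.alg s b b')) (hell r)
  have hX := fun r => ex_der H.hN D' (hell r) (hDell r)
  set X : R → Matrix B B ℂ := fun r => (ex d (ell r)).map D' * ex d (-ell r) with hXd
  have hexx : ∀ r, ex d (ell r) * ex d (-ell r) = 1 := fun r => ex_mul_neg (nn_Ge H.hN (hell r))
  refine ⟨C.map D * C⁻¹, fun r => C * X r * C⁻¹, ?_, Nor_der hb H.alg H.bet (fun x hx => ?_) D,
    fun r => conj_nB hb (hX r).1, ?_, fun b b' h => ?_, fun b h => ?_, H.der_com D, fun r => ?_⟩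
  · have h1 := logder_mem hT (derD (AV.dQ D) QB fun x hx => (QB_iff x).2 hx) hP
    have h2 : (fromBlocks C 0 0 (blockDiagonal fun r => C * ex d (ell r)))⁻¹ =
        fromBlocks C⁻¹ 0 0 (blockDiagonal fun r => ex d (-ell r) * C⁻¹) := by
      refine Matrix.inv_eq_right_inv ?_
      rw [fromBlocks_multiply]
      simp only [Matrix.mul_zero, Matrix.zero_mul, add_zero, zero_add]
      rw [hb.mul_inv, ← blockDiagonal_mul]
      have h3 : (fun r => C * ex d (ell r) * (ex d (-ell r) * C⁻¹)) = (1 : R → Matrix B B ℂ) := by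
        funext r
        rw [Matrix.mul_assoc, ← Matrix.mul_assoc (ex d (ell r)), hexx, Matrix.one_mul, hb.mul_inv]
        rfl
      rw [h3, blockDiagonal_one, fromBlocks_one]
    rw [h2] at h1
    refine (congrArg (fun X => fl X ∈ LL T) ?_).mp h1
    unfold qt
    have hD0 : (derD (AV.dQ D) QB fun x hx => (QB_iff x).2 hx) 0 = 0 := map_zero _
    rw [fromBlocks_map, fromBlocks_multiply, blockDiagonal_map _ _ hD0]
    have h0 : (0 : Matrix B (B × R) ℂ).map (derD (AV.dQ D) QB fun x hx => (QB_iff x).2 hx) = 0 := by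
      ext b b'
      exact hD0
    have h0' : (0 : Matrix (B × R) B ℂ).map (derD (AV.dQ D) QB fun x hx => (QB_iff x).2 hx) = 0 := by
      ext b b'
      exact hD0
    rw [h0, h0']
    simp only [Matrix.mul_zero, Matrix.zero_mul, add_zero, zero_add]
    rw [← blockDiagonal_mul]
    congr 2
    funext r
    have h3 : (C * ex d (ell r)).map (derD (AV.dQ D) QB fun x hx => (QB_iff x).2 hx) =
        C.map D' * ex d (ell r) + C * (ex d (ell r)).map D' := map_mul_D D' _ _
    rw [h3, hmap, hXd, Matrix.add_mul]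
    congr 1
    · rw [Matrix.mul_assoc, ← Matrix.mul_assoc (ex d (ell r)), hexx, Matrix.one_mul]
    · simp only [Matrix.mul_assoc]
  · obtain ⟨q, rfl⟩ := mem_QQ.1 hx
    exact (QB_iff _).1 (isAlgebraic_algebraMap (R := ℚ) (A := ℂ) q)
  · have h3 := Ge_mul (map_Ge_D D H.low) hb.m'
    rw [add_zero] at h3
    exact h3
  · rw [Matrix.mul_apply]
    refine Finset.sum_eq_zero fun c _ => ?_
    rw [Matrix.map_apply]
    rcases lt_trichotomy (d c) (d b) with h5 | h5 | h5
    · rw [H.low b c (by omega), map_zero, zero_mul]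
    · rw [H.inv_one c b' (by omega), mul_zero]
    · by_cases h6 : d c = d b + 1
      · rw [H.one b c h6, map_zero, zero_mul]
      · rw [hb.m' c b' (by omega), mul_zero]
  · rw [Matrix.mul_apply]
    refine Finset.sum_eq_zero fun c _ => ?_
    rw [Matrix.map_apply]
    by_cases hc : d c = 0
    · rw [H.uni c hc, H.coo, Derivation.map_one_eq_zero, zero_mul]
    · rw [hb.m' c b (by omega), mul_zero]
  · have h1 := hb.conj_mem ((hX r).2)
    have h2 : (ell r).map D' - nbv N (fun i => D (l r i)) ∈ Ge d 2 := by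
      have h3 := map_Ge_D D (hell1 r)
      refine (congrArg (· ∈ Ge d 2) ?_).mp h3
      ext b b'
      unfold nbv
      rw [Matrix.map_apply, Matrix.sub_apply, Matrix.sub_apply, Matrix.sum_apply, Matrix.sum_apply, map_sub, map_sum]
      congr 1
      refine Finset.sum_congr rfl fun s _ => ?_
      rw [Matrix.smul_apply, Matrix.smul_apply, smul_eq_mul, smul_eq_mul, Derivation.leibniz, D_alg D (H.alg s b b'),
        smul_zero, zero_add, smul_eq_mul, mul_comm]
    have h3 := hb.conj_mem h2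
    have h4 := H.conj_w (fun i => D (l r i))
    have h5 := (Ge d 2).add_mem ((Ge d 2).add_mem h1 h3) h4
    refine (congrArg (· ∈ Ge d 2) ?_).mp h5
    simp only [Matrix.mul_sub, Matrix.sub_mul, hXd]
    abel

end Fun

end Pool.Agent.X306.CV
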