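import Pool.Agent.X306.CV.Base

set_option autoImplicit false
set_option linter.unusedVariables false
set_option linter.unusedSectionVars false
set_option linter.unusedSimpArgs false

/-!
# The eigenvalues on the graded pieces
-/

open Matrix Module

noncomputable section

namespace Pool.Agent.X306.CV

open Pool.Agent.X306.MT

variable {B I : Type} [Fintype B] [DecidableEq B] [Fintype I] [DecidableEq I] {d : B → ℕ}

/-- a combination of the generators -/
def nbv (NB : I → Matrix B B ℂ) (w : I → ℂ) : Matrix B B ℂ := ∑ j, w j • NB j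

theorem nbv_add (NB : I → Matrix B B ℂ) (w w' : I → ℂ) : nbv NB (w + w') = nbv NB w + nbv NB w' := by
  unfold nbv
  rw [← Finset.sum_add_distrib]
  exact Finset.sum_congr rfl fun j _ => by rw [Pi.add_apply, add_smul]

theorem nbv_smul (NB : I → Matrix B B ℂ) (a : ℂ) (w : I → ℂ) : nbv NB (a • w) = a • nbv NB w := by
  unfold nbv
  rw [Finset.smul_sum]
  exact Finset.sum_congr rfl fun j _ => by rw [Pi.smul_apply, smul_smul, smul_eq_mul]

theorem nbv_zero (NB : I → Matrix B B ℂ) : nbv NB 0 = 0 := by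
  have h := nbv_smul NB 0 0
  rwa [zero_smul, zero_smul] at h

theorem nbv_sub (NB : I → Matrix B B ℂ) (w w' : I → ℂ) : nbv NB (w - w') = nbv NB w - nbv NB w' := by
  have h := nbv_add NB (w - w') w'
  rw [sub_add_cancel] at h
  rw [h, add_sub_cancel_right]

theorem nbv_single (NB : I → Matrix B B ℂ) (i : I) : nbv NB (Pi.single i 1) = NB i := by
  unfold nbv
  rw [Finset.sum_eq_single i]
  · rw [Pi.single_eq_same, one_smul]
  · intro j _ hj
    rw [Pi.single_eq_of_ne hj, zero_smul]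
  · intro h
    exact absurd (Finset.mem_univ _) h

theorem nbv_deg {NB : I → Matrix B B ℂ} (hN : Deg1 d NB) (w : I → ℂ) (b b' : B) (h : d b' ≠ d b + 1) :
    nbv NB w b b' = 0 := by
  unfold nbv
  rw [Matrix.sum_apply]
  exact Finset.sum_eq_zero fun j _ => by rw [Matrix.smul_apply, hN j b b' h, smul_zero]

/-- the vectors of degree `k` -/
def Wd (d : B → ℕ) (k : ℕ) : Submodule ℂ (B → ℂ) where
  carrier := {v | ∀ b, d b ≠ k → v b = 0}
  zero_mem' := fun _ _ => rfl
  add_mem' := fun {v w} hv hw b h => by rw [Pi.add_apply, hv b h, hw b h, add_zero]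
  smul_mem' := fun a v hv b h => by rw [Pi.smul_apply, hv b h, smul_zero]

/-- the matrices of degree `k` -/
def Gr (d : B → ℕ) (k : ℕ) : Submodule ℂ (Matrix B B ℂ) where
  carrier := {M | ∀ b b', d b' ≠ d b + k → M b b' = 0}
  zero_mem' := fun _ _ _ => rfl
  add_mem' := fun {v w} hv hw b b' h => by rw [Matrix.add_apply, hv b b' h, hw b b' h, add_zero]
  smul_mem' := fun a v hv b b' h => by rw [Matrix.smul_apply, hv b b' h, smul_zero]

theorem Wd_Gr {j k : ℕ} {v : B → ℂ} (hv : v ∈ Wd d j) {M : Matrix B B ℂ} (hM : M ∈ Gr d k) : v ᵥ* M ∈ Wd d (j + k) := by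
  intro b hb
  change ∑ a, v a * M a b = 0
  refine Finset.sum_eq_zero fun a _ => ?_
  by_cases h : d a = j
  · rw [hM a b (by rw [h]; exact hb), mul_zero]
  · rw [hv a h, zero_mul]

theorem Gr_mul {j k : ℕ} {M M' : Matrix B B ℂ} (hM : M ∈ Gr d j) (hM' : M' ∈ Gr d k) : M * M' ∈ Gr d (j + k) := by
  intro b b' h
  rw [Matrix.mul_apply]
  refine Finset.sum_eq_zero fun a _ => ?_
  by_cases h1 : d a = d b + j
  · rw [hM' a b' (by omega), mul_zero]
  · rw [hM b a h1, zero_mul]

theorem Gr_Ge {k : ℕ} {M : Matrix B B ℂ} (hM : M ∈ Gr d k) : M ∈ Ge d k := fun b b' h => hM b b' (by omega)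

theorem pr_Gr (k : ℕ) (M : Matrix B B ℂ) : pr d k M ∈ Gr d k := by
  intro b b' h
  rw [pr_apply, if_neg h]

theorem Gr_eq_zero {k : ℕ} {M : Matrix B B ℂ} (hM : M ∈ Gr d k) (h : M ∈ Ge d (k + 1)) : M = 0 := by
  ext b b'
  by_cases h1 : d b' = d b + k
  · exact h b b' (by omega)
  · exact hM b b' h1

/-- The data. -/
structure Dat (d : B → ℕ) (o : B) (NB : I → Matrix B B ℂ) (Z : Matrix B B ℂ) (X : Matrix I I ℂ) (h : ℝ) : Prop where
  hN : Deg1 d NB
  hZ : Z ∈ Gr d 0
  com : ∀ w, Z * nbv NB w - nbv NB w * Z + nbv NB (w ᵥ* X) = 0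
  ori : ∀ b, Z o b = 0
  dgo : d o = 0
  uni : ∀ b, d b = 0 → b = o
  gen : ∀ b, b ≠ o → (Pi.single b 1 : B → ℂ) ∈ Submodule.span ℂ {v' | ∃ (v : B → ℂ) (i : I), v' = v ᵥ* NB i}
  hX : ∀ t : ℂ, t.re ≠ h → ∀ v : I → ℂ, v ᵥ* X = t • v → v = 0
  h0 : h ≠ 0

/-- the projection of a vector -/
def pj (d : B → ℕ) (k : ℕ) : (B → ℂ) →ₗ[ℂ] (B → ℂ) where
  toFun v b := if d b = k then v b else 0
  map_add' v w := by
    funext b
    simp only [Pi.add_apply]
    split_ifs
    · rfl
    · rw [add_zero]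
  map_smul' a v := by
    funext b
    simp only [Pi.smul_apply, RingHom.id_apply]
    split_ifs
    · rfl
    · rw [smul_zero]

theorem pj_apply (k : ℕ) (v : B → ℂ) (b : B) : pj d k v b = if d b = k then v b else 0 := rfl

theorem pj_mem (k : ℕ) (v : B → ℂ) : pj d k v ∈ Wd d k := by
  intro b h
  rw [pj_apply, if_neg h]

theorem pj_self {k : ℕ} {v : B → ℂ} (hv : v ∈ Wd d k) : pj d k v = v := by
  funext b
  rw [pj_apply]
  split_ifs with h
  · rfl
  · exact (hv b h).symm

theorem pj_N {NB : I → Matrix B B ℂ} (hN : Deg1 d NB) (k : ℕ) (v : B → ℂ) (i : I) :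
    pj d (k + 1) (v ᵥ* NB i) = pj d k v ᵥ* NB i := by
  funext b
  rw [pj_apply]
  change (if d b = k + 1 then ∑ a, v a * NB i a b else 0) = ∑ a, pj d k v a * NB i a b
  split_ifs with h
  · refine Finset.sum_congr rfl fun a _ => ?_
    rw [pj_apply]
    split_ifs with h1
    · rfl
    · rw [hN i a b (by omega), mul_zero, mul_zero]
  · symm
    refine Finset.sum_eq_zero fun a _ => ?_
    rw [pj_apply]
    split_ifs with h1
    · rw [hN i a b (by omega), mul_zero]
    · rw [zero_mul]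

variable {o : B} {NB : I → Matrix B B ℂ} {Z : Matrix B B ℂ} {X : Matrix I I ℂ} {h : ℝ}

theorem Wd_gen (hN : Deg1 d NB) (dgo : d o = 0)
    (gen : ∀ b, b ≠ o → (Pi.single b 1 : B → ℂ) ∈ Submodule.span ℂ {v' | ∃ (v : B → ℂ) (i : I), v' = v ᵥ* NB i})
    {k : ℕ} {v : B → ℂ} (hv : v ∈ Wd d (k + 1)) :
    v ∈ Submodule.span ℂ {v' | ∃ v₁ ∈ Wd d k, ∃ i : I, v' = v₁ ᵥ* NB i} := by
  have h1 : v = ∑ b, v b • (Pi.single b 1 : B → ℂ) := by
    funext c
    rw [Finset.sum_apply, Finset.sum_eq_single c]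
    · rw [Pi.smul_apply, Pi.single_eq_same, smul_eq_mul, mul_one]
    · intro b _ hb
      rw [Pi.smul_apply, Pi.single_eq_of_ne (Ne.symm hb), smul_zero]
    · intro hc
      exact absurd (Finset.mem_univ _) hc
  rw [h1]
  refine Submodule.sum_mem _ fun b _ => ?_
  by_cases hb : d b = k + 1
  · refine Submodule.smul_mem _ _ ?_
    have h2 := gen b (by
      rintro rfl
      omega)
    have h3 : pj d (k + 1) (Pi.single b 1 : B → ℂ) = Pi.single b 1 := by
      refine pj_self fun c hc => ?_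
      rw [Pi.single_eq_of_ne]
      rintro rfl
      exact hc hb
    rw [← h3]
    have h4 : Submodule.map (pj d (k + 1)) (Submodule.span ℂ {v' | ∃ (v : B → ℂ) (i : I), v' = v ᵥ* NB i}) ≤
        Submodule.span ℂ {v' | ∃ v₁ ∈ Wd d k, ∃ i : I, v' = v₁ ᵥ* NB i} := by
      rw [Submodule.map_span, Submodule.span_le]
      rintro _ ⟨_, ⟨v, i, rfl⟩, rfl⟩
      rw [pj_N hN]
      exact Submodule.subset_span ⟨_, pj_mem k v, i, rfl⟩
    exact h4 (Submodule.mem_map_of_mem h2)
  · rw [hv b hb, zero_smul]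
    exact Submodule.zero_mem _

/-- the action on the generators -/
def opX (X : Matrix I I ℂ) : Module.End ℂ (I → ℂ) := X.vecMulLinear

theorem opX_apply (X : Matrix I I ℂ) (w : I → ℂ) : opX X w = w ᵥ* X := rfl

variable (D : Dat d o NB Z X h)
include D

theorem Dat.gx {ν : ℂ} (hν : ν.re ≠ h) (m : ℕ) : ∀ w : I → ℂ,
    ((opX X - ν • (1 : Module.End ℂ (I → ℂ))) ^ m) w = 0 → w = 0 := by
  induction m with
  | zero =>
    intro w hw
    simpa using hw
  | succ m ih =>
    intro w hw
    rw [pow_succ, Module.End.mul_apply] at hw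
    have h1 := ih _ hw
    refine D.hX ν hν w ?_
    rw [LinearMap.sub_apply, LinearMap.smul_apply, Module.End.one_apply, sub_eq_zero] at h1
    exact h1

theorem Dat.inner {k : ℕ} (hs : ∀ t : ℂ, t.re ≠ k * h → ∀ v ∈ Wd d k, ∃ v' ∈ Wd d k, v' ᵥ* Z - t • v' = v)
    {t : ℂ} (ht : t.re ≠ (k + 1) * h) (ν : ℂ) (m : ℕ) : ∀ w : I → ℂ,
    ((opX X - ν • (1 : Module.End ℂ (I → ℂ))) ^ m) w = 0 →
      ∀ v₁ ∈ Wd d k, ∃ v' ∈ Wd d (k + 1), v' ᵥ* Z - t • v' = v₁ ᵥ* nbv NB w := by
  by_cases hν : ν.re = h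
  · induction m with
    | zero =>
      intro w hw v₁ hv₁
      have h1 : w = 0 := by simpa using hw
      refine ⟨0, Submodule.zero_mem _, ?_⟩
      rw [h1, nbv_zero, Matrix.vecMul_zero, Matrix.zero_vecMul, smul_zero, sub_zero]
    | succ m ih =>
      intro w hw v₁ hv₁
      rw [pow_succ, Module.End.mul_apply] at hw
      have e1 : (opX X - ν • (1 : Module.End ℂ (I → ℂ))) w = w ᵥ* X - ν • w := rfl
      rw [e1] at hw
      obtain ⟨v₂, hv₂, h2⟩ := hs (t - ν) (by
        rw [Complex.sub_re, hν]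
        intro h3
        apply ht
        linarith) v₁ hv₁
      obtain ⟨v₃, hv₃, h3⟩ := ih _ hw v₂ hv₂
      have hd : v₂ ᵥ* nbv NB w ∈ Wd d (k + 1) := Wd_Gr hv₂ (nbv_deg D.hN w)
      refine ⟨v₂ ᵥ* nbv NB w - v₃, Submodule.sub_mem _ hd hv₃, ?_⟩
      have h4 : nbv NB w * Z = Z * nbv NB w + nbv NB (w ᵥ* X) := by
        have h5 := D.com w
        have h6 : Z * nbv NB w + nbv NB (w ᵥ* X) - nbv NB w * Z = 0 := by
          rw [← h5]
          abel
        exact (sub_eq_zero.1 h6).symm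
      have h5 : v₂ ᵥ* Z = v₁ + (t - ν) • v₂ := by
        rw [← h2]
        abel
      rw [Matrix.sub_vecMul, Matrix.vecMul_vecMul, h4, Matrix.vecMul_add, ← Matrix.vecMul_vecMul, h5, Matrix.add_vecMul,
        Matrix.smul_vecMul, smul_sub]
      have h6 : v₂ ᵥ* nbv NB (w ᵥ* X) = v₂ ᵥ* nbv NB (w ᵥ* X - ν • w) + ν • (v₂ ᵥ* nbv NB w) := by
        rw [nbv_sub, nbv_smul, Matrix.vecMul_sub, Matrix.vecMul_smul, sub_add_cancel]
      rw [h6, ← h3, sub_smul]
      abel
  · intro w hw v₁ hv₁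
    have h1 := D.gx hν m w hw
    refine ⟨0, Submodule.zero_mem _, ?_⟩
    rw [h1, nbv_zero, Matrix.vecMul_zero, Matrix.zero_vecMul, smul_zero, sub_zero]

theorem Dat.surj (k : ℕ) : ∀ t : ℂ, t.re ≠ k * h → ∀ v ∈ Wd d k, ∃ v' ∈ Wd d k, v' ᵥ* Z - t • v' = v := by
  induction k with
  | zero =>
    intro t ht v hv
    have ht0 : t ≠ 0 := by
      rintro rfl
      apply ht
      simp
    have h1 : v ᵥ* Z = 0 := by
      funext b
      change ∑ a, v a * Z a b = 0
      refine Finset.sum_eq_zero fun a _ => ?_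
      by_cases ha : d a = 0
      · rw [D.uni a ha, D.ori, mul_zero]
      · rw [hv a ha, zero_mul]
    refine ⟨-(t⁻¹ • v), Submodule.neg_mem _ (Submodule.smul_mem _ _ hv), ?_⟩
    rw [Matrix.neg_vecMul, Matrix.smul_vecMul, h1, smul_zero, neg_zero, zero_sub, smul_neg, neg_neg, smul_smul,
      mul_inv_cancel₀ ht0, one_smul]
  | succ k ih =>
    intro t ht v hv
    rw [Nat.cast_succ] at ht
    have h1 := Wd_gen D.hN D.dgo D.gen hv
    clear hv
    induction h1 using Submodule.span_induction with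
    | mem v hv =>
      obtain ⟨v₁, hv₁, i, rfl⟩ := hv
      have h2 : (Pi.single i 1 : I → ℂ) ∈ ⨆ μ : ℂ, (opX X).maxGenEigenspace μ := by
        rw [Module.End.iSup_maxGenEigenspace_eq_top]
        exact Submodule.mem_top
      rw [← nbv_single NB i]
      generalize (Pi.single i 1 : I → ℂ) = w at h2
      induction h2 using Submodule.iSup_induction' with
      | mem μ w hw =>
        obtain ⟨m, hm⟩ := (Module.End.mem_maxGenEigenspace _ _ _).1 hw
        exact D.inner ih ht μ m w hm v₁ hv₁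
      | zero =>
        refine ⟨0, Submodule.zero_mem _, ?_⟩
        rw [nbv_zero, Matrix.vecMul_zero, Matrix.zero_vecMul, smul_zero, sub_zero]
      | add w w' _ _ h3 h4 =>
        obtain ⟨v₂, h5, h6⟩ := h3
        obtain ⟨v₃, h7, h8⟩ := h4
        refine ⟨v₂ + v₃, Submodule.add_mem _ h5 h7, ?_⟩
        rw [nbv_add, Matrix.vecMul_add, ← h6, ← h8, Matrix.add_vecMul, smul_add]
        abel
    | zero =>
      refine ⟨0, Submodule.zero_mem _, ?_⟩
      rw [Matrix.zero_vecMul, smul_zero, sub_zero]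
    | add v v' _ _ h3 h4 =>
      obtain ⟨v₂, h5, h6⟩ := h3
      obtain ⟨v₃, h7, h8⟩ := h4
      refine ⟨v₂ + v₃, Submodule.add_mem _ h5 h7, ?_⟩
      rw [← h6, ← h8, Matrix.add_vecMul, smul_add]
      abel
    | smul a v _ h3 =>
      obtain ⟨v₂, h5, h6⟩ := h3
      refine ⟨a • v₂, Submodule.smul_mem _ a h5, ?_⟩
      rw [← h6, Matrix.smul_vecMul, smul_sub, smul_comm]

/-- the operator on the vectors of degree `k` -/
def opW (_ : Dat d o NB Z X h) (k : ℕ) : Module.End ℂ (Wd d k) :=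
  (Z.vecMulLinear : (B → ℂ) →ₗ[ℂ] (B → ℂ)).restrict fun v hv => Wd_Gr (k := 0) hv (by assumption : Dat d o NB Z X h).hZ

theorem opW_coe (k : ℕ) (v : Wd d k) : ((opW D k v : Wd d k) : B → ℂ) = (v : B → ℂ) ᵥ* Z := rfl

theorem Dat.inj {k : ℕ} {t : ℂ} (ht : t.re ≠ k * h) {v : B → ℂ} (hv : v ∈ Wd d k) (he : v ᵥ* Z = t • v) : v = 0 := by
  have h1 : Function.Surjective (opW D k - t • (1 : Module.End ℂ (Wd d k))) := by
    rintro ⟨v, hv⟩
    obtain ⟨v', h2, h3⟩ := D.surj k t ht v hv
    exact ⟨⟨v', h2⟩, Subtype.ext h3⟩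
  have h2 := LinearMap.injective_iff_surjective.2 h1
  have h3 : (opW D k - t • (1 : Module.End ℂ (Wd d k))) ⟨v, hv⟩ = 0 := by
    apply Subtype.ext
    change v ᵥ* Z - t • v = 0
    rw [he, sub_self]
  have h4 := h2 (h3.trans (map_zero _).symm)
  exact congrArg Subtype.val h4

theorem Dat.ginj {k : ℕ} {t : ℂ} (ht : t.re ≠ k * h) (m : ℕ) : ∀ v : Wd d k,
    ((opW D k - t • (1 : Module.End ℂ (Wd d k))) ^ m) v = 0 → v = 0 := by
  induction m with
  | zero =>
    intro v hv
    simpa using hv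
  | succ m ih =>
    intro v hv
    rw [pow_succ, Module.End.mul_apply] at hv
    have h1 := ih _ hv
    apply Subtype.ext
    refine D.inj ht v.2 ?_
    rw [LinearMap.sub_apply, LinearMap.smul_apply, Module.End.one_apply, sub_eq_zero] at h1
    exact congrArg Subtype.val h1

/-- the eigenvalues on the matrices of degree `k` -/
theorem Dat.mat {k : ℕ} {t : ℂ} (ht : t.re ≠ -(k * h)) {M : Matrix B B ℂ} (hM : M ∈ Gr d k)
    (he : Z * M - M * Z = t • M) : M = 0 := by
  have key : ∀ (j : ℕ) (μ : ℂ) (m : ℕ) (v : Wd d j), ((opW D j - μ • (1 : Module.End ℂ (Wd d j))) ^ m) v = 0 →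
      (v : B → ℂ) ᵥ* M = 0 := by
    intro j μ m
    induction m with
    | zero =>
      intro v hv
      have h1 : v = 0 := by simpa using hv
      rw [h1]
      exact Matrix.zero_vecMul _
    | succ m ih =>
      intro v hv
      by_cases hμ : μ.re = j * h
      · have hv' := hv
        rw [pow_succ, Module.End.mul_apply] at hv'
        have h1 := ih _ hv'
        have h2 : ((v : B → ℂ) ᵥ* Z - μ • (v : B → ℂ)) ᵥ* M = 0 := h1
        rw [Matrix.sub_vecMul, Matrix.smul_vecMul, sub_eq_zero, Matrix.vecMul_vecMul] at h2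
        have h3 : Z * M = t • M + M * Z := by rw [← he, sub_add_cancel]
        rw [h3, Matrix.vecMul_add, Matrix.vecMul_smul, ← Matrix.vecMul_vecMul] at h2
        refine D.inj (t := μ - t) (k := j + k) ?_ (Wd_Gr v.2 hM) ?_
        · rw [Complex.sub_re, hμ, Nat.cast_add]
          intro h4
          apply ht
          linarith
        · rw [sub_smul, ← h2]
          abel
      · rw [D.ginj hμ (m + 1) v hv]
        exact Matrix.zero_vecMul _
  have h1 : ∀ (j : ℕ) (v : Wd d j), (v : B → ℂ) ᵥ* M = 0 := by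
    intro j v
    have h2 : v ∈ ⨆ μ : ℂ, (opW D j).maxGenEigenspace μ := by
      rw [Module.End.iSup_maxGenEigenspace_eq_top]
      exact Submodule.mem_top
    induction h2 using Submodule.iSup_induction' with
    | mem μ w hw =>
      obtain ⟨m, hm⟩ := (Module.End.mem_maxGenEigenspace _ _ _).1 hw
      exact key j μ m w hm
    | zero => exact Matrix.zero_vecMul _
    | add w w' _ _ h3 h4 =>
      rw [Submodule.coe_add, Matrix.add_vecMul, h3, h4, add_zero]
  ext b b'
  have h2 := h1 (d b) ⟨Pi.single b 1, fun c hc => by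
    rw [Pi.single_eq_of_ne]
    rintro rfl
    exact hc rfl⟩
  have h3 := congrFun h2 b'
  change ((Pi.single b 1 : B → ℂ) ᵥ* M) b' = 0 at h3
  rw [Matrix.single_one_vecMul] at h3
  exact h3

omit D in
/-- the commutator with `Z` -/
def rho (Z : Matrix B B ℂ) : Module.End ℂ (Matrix B B ℂ) where
  toFun M := Z * M - M * Z
  map_add' M M' := by
    rw [Matrix.mul_add, Matrix.add_mul]
    abel
  map_smul' a M := by
    rw [Matrix.mul_smul, Matrix.smul_mul, smul_sub, RingHom.id_apply]

omit D in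
theorem rho_apply (Z M : Matrix B B ℂ) : rho Z M = Z * M - M * Z := rfl

theorem Dat.rho_Gr {k : ℕ} {M : Matrix B B ℂ} (hM : M ∈ Gr d k) : rho Z M ∈ Gr d k := by
  refine (Gr d k).sub_mem ?_ (Gr_mul hM D.hZ)
  have := Gr_mul D.hZ hM
  rwa [zero_add] at this

/-- A polynomial in the commutator operator which kills the matrices of degree `k ≥ 2` and is invertible on the
generators. -/
theorem Dat.poly {k : ℕ} (hk : 2 ≤ k) : ∃ q : Polynomial ℂ, (∀ M ∈ Gr d k, Polynomial.aeval (rho Z) q M = 0) ∧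
    ∀ τ : I → ℂ, ∃ τ' : I → ℂ, Polynomial.aeval (-opX X) q τ' = τ := by
  set ρ : Module.End ℂ (Gr d k) := (rho Z).restrict fun M hM => D.rho_Gr hM with hρ
  set q := minpoly ℂ ρ with hq
  have hcoe : ∀ (p : Polynomial ℂ) (M : Gr d k), ((Polynomial.aeval ρ p M : Gr d k) : Matrix B B ℂ) =
      Polynomial.aeval (rho Z) p (M : Matrix B B ℂ) := by
    intro p
    induction p using Polynomial.induction_on' with
    | add p q h1 h2 =>
      intro M
      rw [map_add, map_add, LinearMap.add_apply, LinearMap.add_apply, Submodule.coe_add, h1, h2]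
    | monomial n a =>
      intro M
      rw [Polynomial.aeval_monomial, Polynomial.aeval_monomial]
      have h1 : ∀ n : ℕ, (((ρ ^ n) M : Gr d k) : Matrix B B ℂ) = ((rho Z) ^ n) (M : Matrix B B ℂ) := by
        intro n
        induction n with
        | zero => rfl
        | succ n ih =>
          rw [pow_succ', pow_succ', Module.End.mul_apply, Module.End.mul_apply, ← ih]
          rfl
      rw [Module.End.mul_apply, Module.End.mul_apply, Module.algebraMap_end_apply, Module.algebraMap_end_apply,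
        Submodule.coe_smul, h1]
  refine ⟨q, fun M hM => ?_, fun τ => ?_⟩
  · have h1 := hcoe q ⟨M, hM⟩
    have h2 : Polynomial.aeval ρ q = 0 := minpoly.aeval ℂ ρ
    rw [← h1, h2]
    rfl
  · set Ξ : Module.End ℂ (I → ℂ) := -opX X with hΞ
    have hcop : IsCoprime q (minpoly ℂ Ξ) := by
      rw [Polynomial.isCoprime_iff_aeval_ne_zero_of_isAlgClosed ℂ ℂ]
      intro t
      by_contra hcon
      rw [not_or, not_not, not_not] at hcon
      obtain ⟨h1, h2⟩ := hcon
      rw [Polynomial.coe_aeval_eq_eval] at h1 h2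
      have h3 : (minpoly ℂ ρ).IsRoot t := h1
      have h4 : (minpoly ℂ Ξ).IsRoot t := h2
      obtain ⟨M, hM⟩ := (Module.End.hasEigenvalue_of_isRoot h3).exists_hasEigenvector
      obtain ⟨v, hv⟩ := (Module.End.hasEigenvalue_of_isRoot h4).exists_hasEigenvector
      have h5 : t.re = -(k * h) := by
        by_contra h6
        apply hM.2
        apply Subtype.ext
        refine D.mat h6 M.2 ?_
        have h7 := hM.apply_eq_smul
        exact congrArg Subtype.val h7
      have h6 : (-t).re = h := by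
        by_contra h7
        apply hv.2
        refine D.hX (-t) h7 v ?_
        have h8 := hv.apply_eq_smul
        rw [hΞ, LinearMap.neg_apply] at h8
        have h9 : v ᵥ* X = -(t • v) := by
          rw [← h8, neg_neg]
          rfl
        rw [h9, neg_smul]
      rw [Complex.neg_re, h5, neg_neg] at h6
      have h7 : ((k : ℝ) - 1) * h = 0 := by linarith
      rcases mul_eq_zero.1 h7 with h8 | h8
      · have h9 : (k : ℝ) = ((1 : ℕ) : ℝ) := by
          rw [Nat.cast_one]
          linarith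
        have h10 := Nat.cast_injective h9
        omega
      · exact D.h0 h8
    obtain ⟨a, b, hab⟩ := hcop
    refine ⟨Polynomial.aeval Ξ a τ, ?_⟩
    have h1 := congrArg (fun p => Polynomial.aeval Ξ p τ) hab
    simp only [map_add, map_mul, minpoly.aeval, mul_zero, add_zero, map_one, Module.End.one_apply] at h1
    rw [← Module.End.mul_apply, ← map_mul, mul_comm, map_mul]
    exact h1

end Pool.Agent.X306.CV
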