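import Pool.Agent.X306.CV.Raise

set_option autoImplicit false
set_option linter.unusedVariables false
set_option linter.unusedSectionVars false
set_option linter.unusedSimpArgs false

/-!
# The main theorem
-/

open Matrix Module

noncomputable section

namespace Pool.Agent.X306.CV

open Pool.Agent.W516.DR Pool.Agent.W245.EB Pool.Agent.Y102
open Pool.Agent.TH127.PT Pool.Agent.TH119.DR Pool.Agent.Y123.ST
open Pool.Agent.X306.EM (QB_iff QQ mem_QQ)
open Pool.Agent.X306.RL (LL_br derD LL_defF GDef)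
open Pool.Agent.X306.MT
open Pool.Agent.X306.MZ (InK)
open Pool.Agent.X306.AV (PA UU eqv Fld Pt Lt Good)

section expo

variable {B R : Type} [Fintype B] [DecidableEq B] [Fintype R] [DecidableEq R] {d : B → ℕ}

theorem bd_pow (V : R → Matrix B B ℂ) (k : ℕ) :
    (fromBlocks 0 0 0 (blockDiagonal V) : Matrix (B ⊕ (B × R)) (B ⊕ (B × R)) ℂ) ^ (k + 1) =
      fromBlocks 0 0 0 (blockDiagonal fun r => V r ^ (k + 1)) := by
  induction k with
  | zero =>
    rw [zero_add, pow_one]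
    congr 2
    funext r
    rw [pow_one]
  | succ k ih =>
    rw [pow_succ, ih, fromBlocks_multiply]
    simp only [Matrix.mul_zero, Matrix.zero_mul, add_zero, zero_add]
    rw [← blockDiagonal_mul]
    congr 2

theorem bd_ee (V : R → Matrix B B ℂ) (k : ℕ) :
    ee (fromBlocks 0 0 0 (blockDiagonal V) : Matrix (B ⊕ (B × R)) (B ⊕ (B × R)) ℂ) (k + 1) =
      fromBlocks 0 0 0 (blockDiagonal fun r => ee (V r) (k + 1)) := by
  unfold MT.ee
  rw [bd_pow, fromBlocks_smul]
  simp only [smul_zero]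
  rw [← blockDiagonal_smul]
  rfl

theorem bd_sum (V : R → Matrix B B ℂ) (K : ℕ) :
    ∑ k ∈ Finset.range (K + 1), ee (fromBlocks 0 0 0 (blockDiagonal V) : Matrix (B ⊕ (B × R)) (B ⊕ (B × R)) ℂ) k =
      fromBlocks 1 0 0 (blockDiagonal fun r => ∑ k ∈ Finset.range (K + 1), ee (V r) k) := by
  induction K with
  | zero =>
    simp only [zero_add, Finset.sum_range_one, ee_zero]
    have h : (fun _ : R => (1 : Matrix B B ℂ)) = 1 := rfl
    rw [h, blockDiagonal_one, fromBlocks_one]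
  | succ K ih =>
    rw [Finset.sum_range_succ, ih, bd_ee, fromBlocks_add]
    simp only [add_zero]
    rw [← blockDiagonal_add]
    congr 2
    funext r
    rw [Finset.sum_range_succ _ (K + 1)]
    rfl

theorem ex_conj {C : Matrix B B ℂ} (hC : Bi d C) (n : Matrix B B ℂ) : ex d (C * n * C⁻¹) = C * ex d n * C⁻¹ := by
  have h2 : ∀ k : ℕ, (C * n * C⁻¹) ^ k = C * n ^ k * C⁻¹ := by
    intro k
    induction k with
    | zero => rw [pow_zero, pow_zero, Matrix.mul_one, hC.mul_inv]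
    | succ k ih =>
      rw [pow_succ, ih, pow_succ]
      have h3 : C * n ^ k * C⁻¹ * (C * n * C⁻¹) = C * n ^ k * (C⁻¹ * C) * (n * C⁻¹) := by
        simp only [Matrix.mul_assoc]
      rw [h3, hC.inv_mul, Matrix.mul_one]
      simp only [Matrix.mul_assoc]
  unfold ex MT.ee
  rw [Finset.mul_sum, Finset.sum_mul]
  refine Finset.sum_congr rfl fun k _ => ?_
  rw [h2, Matrix.mul_smul, Matrix.smul_mul]

end expo

variable {g : ℕ} {A : AbVar g} {B R : Type} [Fintype B] [DecidableEq B] [Fintype R] [DecidableEq R]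
  {d : B → ℕ} {o : B} {N : Fin (2 * g) → Matrix B B ℂ} {C : Matrix B B ℂ} {NB : Fin (2 * g) → Matrix B B ℂ}
  {T : Set (Matrix (B ⊕ (B × R)) (B ⊕ (B × R)) ℂ)} {u e : R → Fin g → ℂ} {ell : R → Matrix B B ℂ}
  {F : IntermediateField ℚ ℂ}

/-- **The main theorem.** -/
theorem main (H : Fun d o N NB C (PA A) (PA A)⁻¹) (hT : IsSubtorsor QB T) (hG : GDef QQ T)
    (hell : ∀ r, ell r ∈ nn N) (hell1 : ∀ r, ell r - nbv N (ll u e r) ∈ Ge d 2)
    (hP : fromBlocks C 0 0 (blockDiagonal fun r => C * ex d (ell r)) ∈ T)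
    (hF : Fld A F) (hu : ∀ r, u r ∈ Pt A F)
    (hind : ∀ (Q : R → (Fin g → ℂ) →ₗ[ℂ] (Fin g → ℂ)), (∀ r, ∀ w ∈ Lt A, Q r w ∈ Lt A) →
      ∑ r, Q r (u r) ∈ Lt A → ∀ r, Q r = 0)
    {n : R → Matrix B B ℂ} (hn : ∀ r, n r ∈ nn N) {x : Matrix (B ⊕ (B × R)) (B ⊕ (B × R)) ℂ} (hx : x ∈ T) :
    fromBlocks 1 0 0 (blockDiagonal fun r => C * ex d (n r) * C⁻¹) * x ∈ T := by
  have G : Good A u e (fun j : Empty => j.elim) (gC A T d o C N NB) := good_gC H hT hG hell hell1 hP _
  obtain ⟨X, y, YZ, VZ, h, hZ, D⟩ := exists_Dat H G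
  have hA := exists_Ad G hF hu hind
  have hE := all_mem H hZ D hA hn
  unfold qt at hE
  simp only [zero_add] at hE
  set V : R → Matrix B B ℂ := fun r => C * n r * C⁻¹ with hV
  have hV1 : ∀ r, V r ∈ Ge d 1 := fun r => nB_Ge H.bi H.hN (conj_nB H.bi (hn r))
  obtain ⟨m, hm⟩ : ∃ m, top d = m + 1 := ⟨top d - 1, by
    have : 0 < top d := Nat.succ_pos _
    omega⟩
  have hsum : ∑ k ∈ Finset.range (m + 1), ee (fromBlocks 0 0 0 (blockDiagonal V) :
      Matrix (B ⊕ (B × R)) (B ⊕ (B × R)) ℂ) k = fromBlocks 1 0 0 (blockDiagonal fun r => ex d (V r)) := by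
    rw [bd_sum, ← hm]
    rfl
  have h1 := exp_mem hT hE (m := m) (by
    rw [bd_ee, ← hm]
    have h2 : (fun r => ee (V r) (top d)) = 0 := by
      funext r
      exact ee_top (hV1 r) le_rfl
    rw [h2, blockDiagonal_zero, fromBlocks_zero]) hx (by
    rw [hsum]
    refine IsUnit.mul ?_ (hT.isUnit x hx)
    refine IsUnit.of_mul_eq_one (fromBlocks 1 0 0 (blockDiagonal fun r => ex d (-V r))) ?_
    rw [fromBlocks_multiply]
    simp only [Matrix.mul_zero, Matrix.zero_mul, add_zero, zero_add, Matrix.one_mul]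
    rw [← blockDiagonal_mul]
    have h3 : (fun r => ex d (V r) * ex d (-V r)) = (1 : R → Matrix B B ℂ) := by
      funext r
      exact ex_mul_neg (hV1 r)
    rw [h3, blockDiagonal_one, fromBlocks_one])
  rw [hsum] at h1
  refine (congrArg (· ∈ T) ?_).mp h1
  congr 3
  funext r
  exact ex_conj H.bi (n r)

end Pool.Agent.X306.CV
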