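import Pool.Agent.X306.CV.Zed

set_option autoImplicit false
set_option linter.unusedVariables false
set_option linter.unusedSectionVars false
set_option linter.unusedSimpArgs false

/-!
# Raising the degree of the first component
-/

open Matrix Module

noncomputable section

namespace Pool.Agent.X306.CV

open Pool.Agent.W516.DR Pool.Agent.W245.EB Pool.Agent.Y102
open Pool.Agent.TH127.PT Pool.Agent.TH119.DR Pool.Agent.Y123.ST
open Pool.Agent.X306.EM (QB_iff QQ mem_QQ)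
open Pool.Agent.X306.RL (LL_br derD LL_defF GDef)
open Pool.Agent.X306.MT
open Pool.Agent.X306.MZ (InK)

variable {B R I : Type} [Fintype B] [DecidableEq B] [Fintype R] [DecidableEq R] [Fintype I] [DecidableEq I]
  {d : B → ℕ} {o : B} {N : I → Matrix B B ℂ} {C : Matrix B B ℂ} {NB : I → Matrix B B ℂ}
  {T : Set (Matrix (B ⊕ (B × R)) (B ⊕ (B × R)) ℂ)} {P P' : Matrix I I ℂ}

/-- elements with small components, except for one block -/
def Elt (T : Set (Matrix (B ⊕ (B × R)) (B ⊕ (B × R)) ℂ)) (d : B → ℕ) (C : Matrix B B ℂ) (N NB : I → Matrix B B ℂ)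
    (i₀ : R) (τ : I → ℂ) (k : ℕ) : Prop :=
  ∃ Y V, fl (qt Y V) ∈ LL T ∧ Y ∈ Nor C N ∧ (∀ r, V r ∈ nB C N) ∧ Y ∈ Ge d k ∧ (∀ r, r ≠ i₀ → V r ∈ Ge d k) ∧
    V i₀ - nbv NB τ ∈ Ge d 2

/-- elements with given leading components -/
def EE (T : Set (Matrix (B ⊕ (B × R)) (B ⊕ (B × R)) ℂ)) (d : B → ℕ) (C : Matrix B B ℂ) (N NB : I → Matrix B B ℂ)
    (i₀ : R) (k : ℕ) (τ : I → ℂ) (M : Matrix B B ℂ) (W : R → Matrix B B ℂ) : Prop :=
  ∃ Y V, fl (qt Y V) ∈ LL T ∧ Y ∈ Nor C N ∧ (∀ r, V r ∈ nB C N) ∧ (Y ∈ Ge d k ∧ Y - M ∈ Ge d (k + 1)) ∧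
    (∀ r, r ≠ i₀ → V r ∈ Ge d k ∧ V r - W r ∈ Ge d (k + 1)) ∧ V i₀ - nbv NB τ ∈ Ge d 2

variable {i₀ : R} {k : ℕ} {τ τ' : I → ℂ} {M M' : Matrix B B ℂ} {W W' : R → Matrix B B ℂ}

theorem EE.add (h : EE T d C N NB i₀ k τ M W) (h' : EE T d C N NB i₀ k τ' M' W') :
    EE T d C N NB i₀ k (τ + τ') (M + M') (fun r => W r + W' r) := by
  obtain ⟨Y, V, h1, h2, h3, ⟨h4, h5⟩, h6, h7⟩ := h
  obtain ⟨Y', V', h1', h2', h3', ⟨h4', h5'⟩, h6', h7'⟩ := h'
  refine ⟨Y + Y', V + V', ?_, (Nor C N).add_mem h2 h2', fun r => (nB C N).add_mem (h3 r) (h3' r),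
    ⟨(Ge d k).add_mem h4 h4', ?_⟩, fun r hr => ⟨(Ge d k).add_mem (h6 r hr).1 (h6' r hr).1, ?_⟩, ?_⟩
  · rw [qt_add, fl_add]
    exact (LL T).add_mem h1 h1'
  · refine (congrArg (· ∈ Ge d (k + 1)) ?_).mp ((Ge d (k + 1)).add_mem h5 h5')
    abel
  · refine (congrArg (· ∈ Ge d (k + 1)) ?_).mp ((Ge d (k + 1)).add_mem (h6 r hr).2 (h6' r hr).2)
    rw [Pi.add_apply]
    beta_reduce
    abel
  · refine (congrArg (· ∈ Ge d 2) ?_).mp ((Ge d 2).add_mem h7 h7')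
    rw [Pi.add_apply, nbv_add]
    abel

theorem EE.smul (a : ℂ) (h : EE T d C N NB i₀ k τ M W) :
    EE T d C N NB i₀ k (a • τ) (a • M) (fun r => a • W r) := by
  obtain ⟨Y, V, h1, h2, h3, ⟨h4, h5⟩, h6, h7⟩ := h
  refine ⟨a • Y, a • V, ?_, (Nor C N).smul_mem a h2, fun r => (nB C N).smul_mem a (h3 r),
    ⟨(Ge d k).smul_mem a h4, ?_⟩, fun r hr => ⟨(Ge d k).smul_mem a (h6 r hr).1, ?_⟩, ?_⟩
  · rw [qt_smul, fl_smul]
    exact (LL T).smul_mem a h1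
  · refine (congrArg (· ∈ Ge d (k + 1)) ?_).mp ((Ge d (k + 1)).smul_mem a h5)
    rw [smul_sub]
  · refine (congrArg (· ∈ Ge d (k + 1)) ?_).mp ((Ge d (k + 1)).smul_mem a (h6 r hr).2)
    rw [Pi.smul_apply, smul_sub]
  · refine (congrArg (· ∈ Ge d 2) ?_).mp ((Ge d 2).smul_mem a h7)
    rw [Pi.smul_apply, nbv_smul, smul_sub]

/-- the leading component of a commutator -/
theorem rho_lead {Z Y : Matrix B B ℂ} (hZ : Z ∈ Ge d 0) (hY : Y ∈ Ge d k) (h : Y - M ∈ Ge d (k + 1)) :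
    Z * Y - Y * Z - rho (pr d 0 Z) M ∈ Ge d (k + 1) := by
  have h1 := Ge_br (sub_pr0 hZ) hY
  have hp : pr d 0 Z ∈ Ge d 0 := Gr_Ge (pr_Gr 0 Z)
  have h2 := Ge_br hp h
  rw [zero_add] at h2
  have h3 : 0 + 1 + k = k + 1 := by omega
  rw [h3] at h1
  refine (congrArg (· ∈ Ge d (k + 1)) ?_).mp ((Ge d (k + 1)).add_mem h1 h2)
  rw [rho_apply]
  simp only [Matrix.mul_sub, Matrix.sub_mul]
  abel

theorem EE.op (H : Fun d o N NB C P P') {X : Matrix I I ℂ} {y : R → I → ℂ} {YZ : Matrix B B ℂ}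
    {VZ : R → Matrix B B ℂ} (hZ : Ad T d o C N NB X y YZ VZ) (hk : 2 ≤ k) (h : EE T d C N NB i₀ k τ M W) :
    EE T d C N NB i₀ k (-opX X τ) (rho (pr d 0 YZ) M) (fun r => rho (pr d 0 YZ) (W r)) := by
  obtain ⟨Y, V, h1, h2, h3, ⟨h4, h5⟩, h6, h7⟩ := h
  have hV1 : ∀ r, V r ∈ Ge d 1 := fun r => nB_Ge H.bi H.hN (h3 r)
  have hVZ1 : ∀ r, VZ r ∈ Ge d 1 := fun r => nB_Ge H.bi H.hN (hZ.bet r)
  refine ⟨YZ * Y - Y * YZ, fun r => (YZ * V r - V r * YZ) - (Y * VZ r - VZ r * Y) + (VZ r * V r - V r * VZ r), ?_,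
    Nor_br hZ.nor h2, fun r => ?_, ⟨?_, ?_⟩, fun r hr => ⟨?_, ?_⟩, ?_⟩
  · rw [← qt_br]
    exact LL_br hZ.mem h1
  · exact (nB C N).add_mem ((nB C N).sub_mem (hZ.nor _ (h3 r)) (h2 _ (hZ.bet r))) (nB_br H.bi (hZ.bet r) (h3 r))
  · have := Ge_br hZ.low h4
    rwa [zero_add] at this
  · exact rho_lead hZ.low h4 h5
  · have e1 := Ge_br hZ.low (h6 r hr).1
    rw [zero_add] at e1
    have e2 : Y * VZ r - VZ r * Y ∈ Ge d k := Ge_mono (by omega) (Ge_br h4 (hVZ1 r))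
    have e3 : VZ r * V r - V r * VZ r ∈ Ge d k := Ge_mono (by omega) (Ge_br (hVZ1 r) (h6 r hr).1)
    exact (Ge d k).add_mem ((Ge d k).sub_mem e1 e2) e3
  · have e1 := rho_lead hZ.low (h6 r hr).1 (h6 r hr).2
    have e2 : Y * VZ r - VZ r * Y ∈ Ge d (k + 1) := Ge_br h4 (hVZ1 r)
    have e3 : VZ r * V r - V r * VZ r ∈ Ge d (k + 1) := Ge_mono (by omega) (Ge_br (hVZ1 r) (h6 r hr).1)
    refine (congrArg (· ∈ Ge d (k + 1)) ?_).mp ((Ge d (k + 1)).add_mem ((Ge d (k + 1)).sub_mem e1 e2) e3)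
    beta_reduce
    abel
  · have e1 := br_two hZ.low hZ.com h7
    have e2 : Y * VZ i₀ - VZ i₀ * Y ∈ Ge d 2 := Ge_mono (by omega) (Ge_br h4 (hVZ1 i₀))
    have e3 : VZ i₀ * V i₀ - V i₀ * VZ i₀ ∈ Ge d 2 := Ge_br (hVZ1 i₀) (hV1 i₀)
    refine (congrArg (· ∈ Ge d 2) ?_).mp ((Ge d 2).add_mem ((Ge d 2).sub_mem e1 e2) e3)
    have h8 : nbv NB (-opX X τ) = -nbv NB (τ ᵥ* X) := by
      have h9 := nbv_smul NB (-1) (τ ᵥ* X)
      rw [neg_one_smul, neg_one_smul] at h9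
      exact h9
    rw [h8]
    beta_reduce
    abel

theorem EE.poly (H : Fun d o N NB C P P') {X : Matrix I I ℂ} {y : R → I → ℂ} {YZ : Matrix B B ℂ}
    {VZ : R → Matrix B B ℂ} (hZ : Ad T d o C N NB X y YZ VZ) (hk : 2 ≤ k) (p : Polynomial ℂ)
    (h : EE T d C N NB i₀ k τ M W) :
    EE T d C N NB i₀ k (Polynomial.aeval (-opX X) p τ) (Polynomial.aeval (rho (pr d 0 YZ)) p M)
      (fun r => Polynomial.aeval (rho (pr d 0 YZ)) p (W r)) := by
  induction p using Polynomial.induction_on' with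
  | add p q h1 h2 =>
    have h3 := h1.add h2
    simp only [map_add, LinearMap.add_apply]
    exact h3
  | monomial n a =>
    have h1 : ∀ n : ℕ, EE T d C N NB i₀ k (((-opX X) ^ n) τ) (((rho (pr d 0 YZ)) ^ n) M)
        (fun r => ((rho (pr d 0 YZ)) ^ n) (W r)) := by
      intro n
      induction n with
      | zero => exact h
      | succ n ih =>
        have h2 := ih.op H hZ hk
        simp only [pow_succ', Module.End.mul_apply]
        exact h2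
    simp only [Polynomial.aeval_monomial, Module.End.mul_apply, Module.algebraMap_end_apply]
    exact (h1 n).smul a

/-- raising the degree -/
theorem raise (H : Fun d o N NB C P P') {X : Matrix I I ℂ} {y : R → I → ℂ} {YZ : Matrix B B ℂ}
    {VZ : R → Matrix B B ℂ} (hZ : Ad T d o C N NB X y YZ VZ) {h : ℝ} (D : Dat d o NB (pr d 0 YZ) X h) (hk : 2 ≤ k)
    (hE : ∀ τ, Elt T d C N NB i₀ τ k) (τ : I → ℂ) : Elt T d C N NB i₀ τ (k + 1) := by
  obtain ⟨q, hq, hs⟩ := D.poly hk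
  obtain ⟨τ', rfl⟩ := hs τ
  obtain ⟨Y, V, h1, h2, h3, h4, h5, h6⟩ := hE τ'
  have h7 : EE T d C N NB i₀ k τ' (pr d k Y) (fun r => pr d k (V r)) :=
    ⟨Y, V, h1, h2, h3, ⟨h4, sub_pr h4⟩, fun r hr => ⟨h5 r hr, sub_pr (h5 r hr)⟩, h6⟩
  obtain ⟨Y', V', h1', h2', h3', ⟨_, h4'⟩, h5', h6'⟩ := h7.poly H hZ hk q
  refine ⟨Y', V', h1', h2', h3', ?_, fun r hr => ?_, h6'⟩
  · rw [hq _ (pr_Gr k Y), sub_zero] at h4'
    exact h4'
  · have h8 := (h5' r hr).2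
    beta_reduce at h8
    rw [hq _ (pr_Gr k (V r)), sub_zero] at h8
    exact h8

/-- the elements of the Lie algebra concentrated in one block -/
theorem top_elt (H : Fun d o N NB C P P') {X : Matrix I I ℂ} {y : R → I → ℂ} {YZ : Matrix B B ℂ}
    {VZ : R → Matrix B B ℂ} (hZ : Ad T d o C N NB X y YZ VZ) {h : ℝ} (D : Dat d o NB (pr d 0 YZ) X h)
    (hA : ∀ y : R → I → ℂ, ∃ Y V, Ad T d o C N NB 0 y Y V) (τ : I → ℂ) :
    ∃ V₀ ∈ nB C N, fl (qt 0 (Pi.single i₀ V₀) : Matrix (B ⊕ (B × R)) (B ⊕ (B × R)) ℂ) ∈ LL T ∧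
      V₀ - nbv NB τ ∈ Ge d 2 := by
  have h2 : ∀ τ, Elt T d C N NB i₀ τ 2 := by
    intro τ
    obtain ⟨Y, V, h1⟩ := hA (Pi.single i₀ τ)
    refine ⟨Y, V, h1.mem, h1.nor, h1.bet, h1.small H, fun r hr => ?_, ?_⟩
    · have h2 := h1.two r
      rw [Pi.single_eq_of_ne hr, nbv_zero, sub_zero] at h2
      exact h2
    · have h2 := h1.two i₀
      rwa [Pi.single_eq_same] at h2
  have h3 : ∀ k : ℕ, ∀ τ, Elt T d C N NB i₀ τ (k + 2) := by
    intro k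
    induction k with
    | zero => exact h2
    | succ k ih => exact fun τ => raise H hZ D (by omega) ih τ
  obtain ⟨Y, V, h4, h5, h6, h7, h8, h9⟩ := h3 (top d) τ
  refine ⟨V i₀, h6 i₀, ?_, h9⟩
  have h10 : Y = 0 := Ge_top (by omega) h7
  have h11 : V = Pi.single i₀ (V i₀) := by
    funext r
    by_cases hr : r = i₀
    · subst hr
      rw [Pi.single_eq_same]
    · rw [Pi.single_eq_of_ne hr]
      exact Ge_top (by omega) (h8 r hr)
  rw [← h11, ← h10]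
  exact h4

/-- the elements of the Lie algebra -/
def mm (T : Set (Matrix (B ⊕ (B × R)) (B ⊕ (B × R)) ℂ)) (C : Matrix B B ℂ) (N : I → Matrix B B ℂ) (i₀ : R) :
    Submodule ℂ (Matrix B B ℂ) where
  carrier := {x | x ∈ nn N ∧ fl (qt 0 (Pi.single i₀ (C * x * C⁻¹)) : Matrix (B ⊕ (B × R)) (B ⊕ (B × R)) ℂ) ∈ LL T}
  zero_mem' := ⟨(nn N).zero_mem, by
    rw [Matrix.mul_zero, Matrix.zero_mul, Pi.single_zero, qt_zero, fl_zero]
    exact (LL T).zero_mem⟩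
  add_mem' := by
    rintro x y ⟨h1, h2⟩ ⟨h3, h4⟩
    refine ⟨(nn N).add_mem h1 h3, ?_⟩
    have h5 := (LL T).add_mem h2 h4
    rw [← fl_add, ← qt_add, add_zero, ← Pi.single_add] at h5
    rwa [Matrix.mul_add, Matrix.add_mul]
  smul_mem' := by
    rintro a x ⟨h1, h2⟩
    refine ⟨(nn N).smul_mem a h1, ?_⟩
    have h5 := (LL T).smul_mem a h2
    rw [← fl_smul, ← qt_smul, smul_zero, ← Pi.single_smul] at h5
    rwa [Matrix.mul_smul, Matrix.smul_mul]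

theorem mm_br (hC : Bi d C) {x y : Matrix B B ℂ} (h : x ∈ mm T C N i₀) (h' : y ∈ mm T C N i₀) :
    x * y - y * x ∈ mm T C N i₀ := by
  refine ⟨nn_br h.1 h'.1, ?_⟩
  have h1 := LL_br h.2 h'.2
  rw [qt_br] at h1
  refine (congrArg (fun X => fl X ∈ LL T) ?_).mp h1
  congr 1
  · rw [Matrix.mul_zero, sub_zero]
  · funext r
    rw [Matrix.zero_mul, Matrix.zero_mul, Matrix.mul_zero, Matrix.mul_zero, sub_zero, sub_zero, zero_add]
    by_cases hr : r = i₀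
    · subst hr
      rw [Pi.single_eq_same, Pi.single_eq_same, Pi.single_eq_same]
      have h2 : ∀ x y : Matrix B B ℂ, (C * x * C⁻¹) * (C * y * C⁻¹) = C * (x * y) * C⁻¹ := by
        intro x y
        have h3 : (C * x * C⁻¹) * (C * y * C⁻¹) = C * x * (C⁻¹ * C) * (y * C⁻¹) := by
          simp only [Matrix.mul_assoc]
        rw [h3, hC.inv_mul, Matrix.mul_one]
        simp only [Matrix.mul_assoc]
      rw [h2, h2, Matrix.mul_sub, Matrix.sub_mul]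
    · rw [Pi.single_eq_of_ne hr, Pi.single_eq_of_ne hr, Pi.single_eq_of_ne hr, Matrix.mul_zero, sub_zero]

/-- the Lie algebra contains the unipotent Lie algebra of every block -/
theorem mm_full (H : Fun d o N NB C P P') {X : Matrix I I ℂ} {y : R → I → ℂ} {YZ : Matrix B B ℂ}
    {VZ : R → Matrix B B ℂ} (hZ : Ad T d o C N NB X y YZ VZ) {h : ℝ} (D : Dat d o NB (pr d 0 YZ) X h)
    (hA : ∀ y : R → I → ℂ, ∃ Y V, Ad T d o C N NB 0 y Y V) : nn N ≤ mm T C N i₀ := by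
  refine full H.hN (fun x hx => hx.1) (fun x hx y hy => mm_br H.bi hx hy) fun s => ?_
  obtain ⟨V₀, h1, h2, h3⟩ := top_elt (i₀ := i₀) H hZ D hA (P' s)
  refine ⟨C⁻¹ * V₀ * C, ⟨h1, ?_⟩, ?_⟩
  · rw [nB_conj H.bi]
    exact h2
  · have h4 := (Ge d 2).sub_mem h3 (H.conjN s)
    have h5 : V₀ - nbv NB (P' s) - (C * N s * C⁻¹ - nbv NB (P' s)) = V₀ - C * N s * C⁻¹ := by abel
    rw [h5] at h4
    have h6 := H.bi.conj_mem' h4
    refine (congrArg (· ∈ Ge d 2) ?_).mp h6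
    rw [Matrix.mul_sub, Matrix.sub_mul]
    congr 1
    have h7 : C⁻¹ * (C * N s * C⁻¹) * C = (C⁻¹ * C) * N s * (C⁻¹ * C) := by
      simp only [Matrix.mul_assoc]
    rw [h7, H.bi.inv_mul, Matrix.one_mul, Matrix.mul_one]

theorem all_mem (H : Fun d o N NB C P P') {X : Matrix I I ℂ} {y : R → I → ℂ} {YZ : Matrix B B ℂ}
    {VZ : R → Matrix B B ℂ} (hZ : Ad T d o C N NB X y YZ VZ) {h : ℝ} (D : Dat d o NB (pr d 0 YZ) X h)
    (hA : ∀ y : R → I → ℂ, ∃ Y V, Ad T d o C N NB 0 y Y V) {n : R → Matrix B B ℂ} (hn : ∀ r, n r ∈ nn N) :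
    fl (qt 0 (fun r => C * n r * C⁻¹) : Matrix (B ⊕ (B × R)) (B ⊕ (B × R)) ℂ) ∈ LL T := by
  have key : ∀ s : Finset R, fl (qt 0 (∑ i ∈ s, Pi.single i (C * n i * C⁻¹)) :
      Matrix (B ⊕ (B × R)) (B ⊕ (B × R)) ℂ) ∈ LL T := by
    intro s
    induction s using Finset.induction_on with
    | empty =>
      rw [Finset.sum_empty, qt_zero, fl_zero]
      exact (LL T).zero_mem
    | insert a s ha ih =>
      have h1 := (mm_full (i₀ := a) H hZ D hA (hn a)).2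
      have h2 := (LL T).add_mem h1 ih
      rw [← fl_add, ← qt_add, add_zero] at h2
      rwa [Finset.sum_insert ha]
  have h1 := key Finset.univ
  refine (congrArg (fun X => fl (qt 0 X) ∈ LL T) ?_).mp h1
  funext r
  rw [Finset.sum_apply, Finset.sum_eq_single r]
  · rw [Pi.single_eq_same]
  · intro i _ hi
    rw [Pi.single_eq_of_ne (Ne.symm hi)]
  · intro h
    exact absurd (Finset.mem_univ _) h

end Pool.Agent.X306.CV
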