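import Pool.Agent.X306.CV.Der

set_option autoImplicit false
set_option linter.unusedVariables false
set_option linter.unusedSectionVars false
set_option linter.unusedSimpArgs false

/-!
# The real parts of the eigenvalues, and the rational Lie algebra
-/

open Matrix Module

noncomputable section

namespace Pool.Agent.X306.CV

open Pool.Agent.W516.DR Pool.Agent.W245.EB Pool.Agent.Y102 Pool.Agent.W516.KC Pool.Agent.W516.KC2 Pool.Agent.H204R3.GP
open Pool.Agent.TH127.PT Pool.Agent.TH119.DR Pool.Agent.Y123.ST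
open Pool.Agent.X306.EM (QB_iff QQ mem_QQ)
open Pool.Agent.X306.RL (LL_br derD LL_defF GDef)
open Pool.Agent.X306.MT
open Pool.Agent.X306.MZ (InK)
open Pool.Agent.X306.AV (GT LT cb cmp cb_cmp cb_add cb_smul cb_zero row_mul Good pers PA PA_inv inv_PA UU eqv ratc mt dQ
  X0_eq hh lam per_eq lam_per)

variable {g : ℕ} {A : AbVar g}

theorem skew_E {ζ : Module.End ℚ (Fin (2 * g) → ℚ)} (hs : IsSkew A.om ζ)
    {M : (Fin g → ℂ) →ₗ[ℂ] (Fin g → ℂ)} (hM : ∀ w, M (A.per w) = A.per (ζ w)) (u v : Fin g → ℂ) :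
    A.E (M u) v = -A.E u (M v) := by
  have h2 : A.E.comp (M.restrictScalars ℝ) = -(A.E.flip.comp (M.restrictScalars ℝ)).flip := by
    refine A.ext_per fun u => A.ext_per fun v => ?_
    change A.E (M (A.per u)) (A.per v) = -A.E (A.per u) (M (A.per v))
    rw [hM, hM, ← AbVar.om_coe, ← AbVar.om_coe, ← Rat.cast_neg]
    congr 1
    linear_combination hs u v
  exact congrArg (fun F : (Fin g → ℂ) →ₗ[ℝ] (Fin g → ℂ) →ₗ[ℝ] ℝ => F u v) h2

/-- the vector with real coordinates -/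
def pR (A : AbVar g) (r : Fin (2 * g) → ℝ) : Fin g → ℂ := ∑ j, r j • A.lam j

theorem pR_inj {r : Fin (2 * g) → ℝ} (h : pR A r = 0) : r = 0 := by
  funext j
  exact Fintype.linearIndependent_iff.1 A.lam.linearIndependent r h j

theorem M_pR {ζ : Module.End ℚ (Fin (2 * g) → ℚ)} {M : (Fin g → ℂ) →ₗ[ℂ] (Fin g → ℂ)}
    (hM : ∀ w, M (A.per w) = A.per (ζ w)) (r : Fin (2 * g) → ℝ) :
    M (pR A r) = pR A fun k => ∑ j, r j * ((ζ (Pi.single j 1) k : ℚ) : ℝ) := by
  have h1 : ∀ j, M (A.lam j) = ∑ k, ((ζ (Pi.single j 1) k : ℚ) : ℝ) • A.lam k := by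
    intro j
    rw [← lam_per, hM, per_eq]
    refine Finset.sum_congr rfl fun k _ => ?_
    funext i
    simp
  unfold pR
  rw [map_sum]
  have h2 : ∀ j, M (r j • A.lam j) = ∑ k, (r j * ((ζ (Pi.single j 1) k : ℚ) : ℝ)) • A.lam k := by
    intro j
    have h3 : M (r j • A.lam j) = r j • M (A.lam j) := by
      have h4 : r j • A.lam j = (r j : ℂ) • A.lam j := by
        funext i
        simp
      rw [h4, map_smul]
      funext i
      simp
    rw [h3, h1, Finset.smul_sum]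
    exact Finset.sum_congr rfl fun k _ => smul_smul _ _ _
  simp only [h2]
  rw [Finset.sum_comm]
  refine Finset.sum_congr rfl fun k _ => ?_
  rw [Finset.sum_smul]

/-- the eigenvalues of a skew element of `End A ⊗ ℚ` are purely imaginary -/
theorem eig_im {ζ : Module.End ℚ (Fin (2 * g) → ℚ)} (hs : IsSkew A.om ζ)
    {M : (Fin g → ℂ) →ₗ[ℂ] (Fin g → ℂ)} (hM : ∀ w, M (A.per w) = A.per (ζ w)) {μ : ℂ} (hμ : μ.re ≠ 0)
    {v : Fin (2 * g) → ℂ} (hv : v ᵥ* mt ζ = μ • v) : v = 0 := by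
  set a := pR A fun j => (v j).re with ha
  set b := pR A fun j => (v j).im with hb
  have hk : ∀ k, ∑ j, v j * ((ζ (Pi.single j 1) k : ℚ) : ℂ) = μ * v k := fun k => congrFun hv k
  have hre : ∀ k, ∑ j, (v j).re * ((ζ (Pi.single j 1) k : ℚ) : ℝ) = μ.re * (v k).re - μ.im * (v k).im := by
    intro k
    have h1 := congrArg Complex.re (hk k)
    rw [Complex.re_sum, Complex.mul_re] at h1
    rw [← h1]
    refine Finset.sum_congr rfl fun j _ => ?_
    rw [Complex.mul_re]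
    simp
  have him : ∀ k, ∑ j, (v j).im * ((ζ (Pi.single j 1) k : ℚ) : ℝ) = μ.re * (v k).im + μ.im * (v k).re := by
    intro k
    have h1 := congrArg Complex.im (hk k)
    rw [Complex.im_sum, Complex.mul_im] at h1
    rw [← h1]
    refine Finset.sum_congr rfl fun j _ => ?_
    rw [Complex.mul_im]
    simp
  have hMa : M a = μ.re • a - μ.im • b := by
    rw [ha, M_pR hM]
    simp only [hre, hb, ha]
    unfold pR
    rw [Finset.smul_sum, Finset.smul_sum, ← Finset.sum_sub_distrib]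
    exact Finset.sum_congr rfl fun k _ => by rw [sub_smul, smul_smul, smul_smul]
  have hMb : M b = μ.re • b + μ.im • a := by
    rw [hb, M_pR hM]
    simp only [him, hb, ha]
    unfold pR
    rw [Finset.smul_sum, Finset.smul_sum, ← Finset.sum_add_distrib]
    exact Finset.sum_congr rfl fun k _ => by rw [add_smul, smul_smul, smul_smul]
  have hI : ∀ x : Fin g → ℂ, M (Complex.I • x) = Complex.I • M x := fun x => map_smul _ _ _
  have hc : ∀ (r : ℝ) (x : Fin g → ℂ), Complex.I • (r • x) = r • (Complex.I • x) := fun r x => smul_comm _ _ _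
  have e1 := skew_E hs hM a (Complex.I • a)
  have e2 := skew_E hs hM b (Complex.I • b)
  rw [hI, hMa, smul_sub, hc, hc] at e1
  rw [hI, hMb, smul_add, hc, hc] at e2
  simp only [map_sub, map_add, map_smul, LinearMap.sub_apply, LinearMap.add_apply, LinearMap.smul_apply,
    smul_eq_mul] at e1 e2
  have e3 : μ.re * (A.E a (Complex.I • a) + A.E b (Complex.I • b)) = 0 := by linarith
  have e4 := (mul_eq_zero.1 e3).resolve_left hμ
  have ha0 : a = 0 := by
    by_contra h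
    have h1 := A.E_pos h
    by_cases hb0 : b = 0
    · rw [hb0] at e4
      simp only [smul_zero, map_zero, LinearMap.zero_apply, add_zero] at e4
      exact h1.ne' e4
    · have h2 := A.E_pos hb0
      linarith
  have hb0 : b = 0 := by
    by_contra h
    have h1 := A.E_pos h
    rw [ha0] at e4
    simp only [smul_zero, map_zero, LinearMap.zero_apply, zero_add] at e4
    exact h1.ne' e4
  have h1 := pR_inj ha0
  have h2 := pR_inj hb0
  funext j
  exact Complex.ext (congrFun h1 j) (congrFun h2 j)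

variable {B R : Type} [Fintype B] [DecidableEq B] [Fintype R] [DecidableEq R]
  {d : B → ℕ} {o : B} {N : Fin (2 * g) → Matrix B B ℂ} {C : Matrix B B ℂ} {NB : Fin (2 * g) → Matrix B B ℂ}
  {T : Set (Matrix (B ⊕ (B × R)) (B ⊕ (B × R)) ℂ)}

/-- the rational elements -/
def gC (A : AbVar g) (T : Set (Matrix (B ⊕ (B × R)) (B ⊕ (B × R)) ℂ)) (d : B → ℕ) (o : B) (C : Matrix B B ℂ)
    (N NB : Fin (2 * g) → Matrix B B ℂ) : Submodule ℚ (GT (Fin (2 * g)) R Empty) where
  carrier := {ξ | (∀ v w, A.om (ξ.1 v) w + A.om v (ξ.1 w) = ξ.2.2.1 * A.om v w) ∧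
    ∃ Y V, Ad T d o C N NB (cb ξ).1 (cb ξ).2.1 Y V}
  zero_mem' := by
    refine ⟨fun v w => ?_, 0, 0, ?_⟩
    · change A.om (0 : Fin (2 * g) → ℚ) w + A.om v (0 : Fin (2 * g) → ℚ) = 0 * A.om v w
      rw [map_zero, LinearMap.zero_apply, map_zero, zero_mul, add_zero]
    · rw [cb_zero]
      exact Ad.zero
  add_mem' := by
    rintro ξ ξ' ⟨h1, Y, V, h2⟩ ⟨h3, Y', V', h4⟩
    refine ⟨fun v w => ?_, Y + Y', V + V', ?_⟩
    · change A.om (ξ.1 v + ξ'.1 v) w + A.om v (ξ.1 w + ξ'.1 w) = (ξ.2.2.1 + ξ'.2.2.1) * A.om v w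
      rw [map_add, LinearMap.add_apply, map_add]
      linear_combination h1 v w + h3 v w
    · rw [cb_add]
      exact h2.add h4
  smul_mem' := by
    rintro q ξ ⟨h1, Y, V, h2⟩
    refine ⟨fun v w => ?_, (q : ℂ) • Y, (q : ℂ) • V, ?_⟩
    · change A.om (q • ξ.1 v) w + A.om v (q • ξ.1 w) = (q * ξ.2.2.1) * A.om v w
      rw [map_smul, LinearMap.smul_apply, map_smul, smul_eq_mul, smul_eq_mul]
      linear_combination q * h1 v w
    · rw [cb_smul]
      exact h2.smul (q : ℂ)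

theorem mem_gC {ξ : GT (Fin (2 * g)) R Empty} : ξ ∈ gC A T d o C N NB ↔
    (∀ v w, A.om (ξ.1 v) w + A.om v (ξ.1 w) = ξ.2.2.1 * A.om v w) ∧
      ∃ Y V, Ad T d o C N NB (cb ξ).1 (cb ξ).2.1 Y V := Iff.rfl

theorem cb_br1 (ξ ξ' : GT (Fin (2 * g)) R Empty) :
    (cb (AV.br ξ ξ')).1 = (cb ξ).1 * (cb ξ').1 - (cb ξ').1 * (cb ξ).1 := by
  ext i j
  change (((ξ'.1 (ξ.1 (Pi.single i 1)) j - ξ.1 (ξ'.1 (Pi.single i 1)) j : ℚ)) : ℂ) =
    ((cb ξ).1 * (cb ξ').1 - (cb ξ').1 * (cb ξ).1) i j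
  rw [Rat.cast_sub, row_mul, row_mul ξ.1, Matrix.sub_apply, Matrix.mul_apply, Matrix.mul_apply]
  rfl

theorem cb_br2 (ξ ξ' : GT (Fin (2 * g)) R Empty) :
    (cb (AV.br ξ ξ')).2.1 = fun r => (cb ξ).2.1 r ᵥ* (cb ξ').1 - (cb ξ').2.1 r ᵥ* (cb ξ).1 := by
  funext r j
  change (((ξ'.1 (ξ.2.1 r) j - ξ.1 (ξ'.2.1 r) j : ℚ)) : ℂ) =
    ((cb ξ).2.1 r ᵥ* (cb ξ').1) j - ((cb ξ').2.1 r ᵥ* (cb ξ).1) j
  rw [Rat.cast_sub, row_mul, row_mul ξ.1]
  rfl

variable {u e : R → Fin g → ℂ} {ell : R → Matrix B B ℂ}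

/-- the integrals of the first and second kind -/
def ll (u e : R → Fin g → ℂ) (r : R) (i : Fin (2 * g)) : ℂ := UU (u r) (e r) ((eqv g).symm i)

theorem good_gC (H : Fun d o N NB C (PA A) (PA A)⁻¹) (hT : IsSubtorsor QB T) (hG : GDef QQ T)
    (hell : ∀ r, ell r ∈ nn N) (hell1 : ∀ r, ell r - nbv N (ll u e r) ∈ Ge d 2)
    (hP : fromBlocks C 0 0 (blockDiagonal fun r => C * ex d (ell r)) ∈ T) (l : Empty → ℂ) :
    Good A u e l (gC A T d o C N NB) where
  skew ξ hξ := hξ.1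
  br ξ hξ ξ' hξ' := by
    obtain ⟨h1, Y, V, h2⟩ := hξ
    obtain ⟨h1', Y', V', h2'⟩ := hξ'
    refine mem_gC.2 ⟨fun v w => ?_, ?_⟩
    · change A.om (ξ'.1 (ξ.1 v) - ξ.1 (ξ'.1 v)) w + A.om v (ξ'.1 (ξ.1 w) - ξ.1 (ξ'.1 w)) = 0 * A.om v w
      rw [map_sub, LinearMap.sub_apply, map_sub]
      linear_combination h1' (ξ.1 v) w - h1 (ξ'.1 v) w + h1' v (ξ.1 w) - h1 v (ξ'.1 w) -
        ξ.2.2.1 * h1' v w + ξ'.2.2.1 * h1 v w
    · rw [cb_br1, cb_br2]
      exact ⟨_, _, h2.br H.bi H.hN h2'⟩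
  der D f := by
    refine mem_gC.2 ⟨fun v w => ?_, ?_⟩
    · have hom : IsDeRhamBettiBilinear QBar A.basis (2 * Real.pi * Complex.I) A.om := by
        rw [AbVar.coe_basis]
        exact A.om_drb
      have h1 := skew_of_mem A.basis AbVar.tau_ne A.om hom (X0_mem A.basis AbVar.tau_ne D f) v w
      rw [X0_eq A u e l D f] at h1
      simp only [LinearMap.sub_apply, LinearMap.smul_apply, Module.End.one_apply, map_sub, map_smul, smul_eq_mul] at h1
      linear_combination h1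
    · obtain ⟨Y, V, h1⟩ := H.der hT hell hell1 hP D
      have h2 := h1.map (LL_defF hT hG hP) H.bet H.rat (ratc f)
      rw [cb_cmp]
      exact ⟨_, _, h2⟩

end Pool.Agent.X306.CV
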