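import Pool.Agent.X306.CV.Re
import Pool.Agent.X306.AV.NC

set_option autoImplicit false
set_option linter.unusedVariables false
set_option linter.unusedSectionVars false
set_option linter.unusedSimpArgs false

/-!
# The distinguished element and the elements with small first component
-/

open Matrix Module

noncomputable section

namespace Pool.Agent.X306.CV

open Pool.Agent.W516.DR Pool.Agent.W245.EB Pool.Agent.Y102 Pool.Agent.W516.KC Pool.Agent.W516.KC2 Pool.Agent.H204R3.GP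
open Pool.Agent.TH127.PT Pool.Agent.TH119.DR Pool.Agent.Y123.ST
open Pool.Agent.X306.EM (QB_iff QQ mem_QQ)
open Pool.Agent.X306.RL (LL_br derD LL_defF GDef)
open Pool.Agent.X306.MT
open Pool.Agent.X306.MZ (InK)
open Pool.Agent.X306.AV (GT LT cb cmp cb_cmp cb_add cb_smul cb_zero row_mul Good pers PA PA_inv inv_PA UU eqv ratc mt dQ
  X0_eq hh lam per_eq lam_per uA mem_uA mem_of_comp Fld Pt Lt)

section gen

variable {B R I : Type} [Fintype B] [DecidableEq B] [Fintype R] [DecidableEq R] [Fintype I] [DecidableEq I]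
  {d : B → ℕ} {o : B} {N : I → Matrix B B ℂ} {C : Matrix B B ℂ} {NB : I → Matrix B B ℂ}
  {T : Set (Matrix (B ⊕ (B × R)) (B ⊕ (B × R)) ℂ)} {P P' : Matrix I I ℂ}

theorem sub_pr0 {k : ℕ} {Y : Matrix B B ℂ} (hY : Y ∈ Ge d k) : Y - pr d k Y ∈ Ge d (k + 1) := sub_pr hY

theorem nbv_Ge {NB : I → Matrix B B ℂ} (hN : Deg1 d NB) (w : I → ℂ) : nbv NB w ∈ Ge d 1 :=
  fun b b' h => nbv_deg hN w b b' (by omega)

/-- the leading part of a commutator, for homogeneous components -/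
theorem com_pr (hNB : Deg1 d NB) {X : Matrix I I ℂ} {Y : Matrix B B ℂ} (hY : Y ∈ Ge d 0)
    (h : ∀ j, Y * NB j - NB j * Y + nbv NB (X j) ∈ Ge d 2) (w : I → ℂ) :
    pr d 0 Y * nbv NB w - nbv NB w * pr d 0 Y + nbv NB (w ᵥ* X) = 0 := by
  refine Gr_eq_zero (d := d) (k := 1) ?_ ?_
  · refine (Gr d 1).add_mem ((Gr d 1).sub_mem ?_ ?_) (nbv_deg hNB _)
    · have h1 := Gr_mul (pr_Gr (d := d) 0 Y) (k := 1) (M' := nbv NB w) (nbv_deg hNB w)
      rwa [zero_add] at h1
    · have h1 := Gr_mul (j := 1) (M := nbv NB w) (nbv_deg hNB w) (pr_Gr (d := d) 0 Y)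
      rwa [add_zero] at h1
  · have h1 := com_w h w
    have h2 := Ge_br (sub_pr0 hY) (nbv_Ge hNB w)
    have h3 := (Ge d 2).sub_mem h1 h2
    refine (congrArg (· ∈ Ge d (1 + 1)) ?_).mp h3
    rw [Matrix.sub_mul, Matrix.mul_sub]
    abel

theorem Wd_all (hNB : Deg1 d NB) (dgo : d o = 0) (uni : ∀ b, d b = 0 → b = o)
    (gen : ∀ b, b ≠ o → (Pi.single b 1 : B → ℂ) ∈ Submodule.span ℂ {v' | ∃ (v : B → ℂ) (i : I), v' = v ᵥ* NB i})
    {Z : Matrix B B ℂ} (hZ : Z ∈ Gr d 0) (ori : ∀ b, d b = 0 → Z o b = 0)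
    (com : ∀ j, Z * NB j = NB j * Z) : Z = 0 := by
  have key : ∀ (k : ℕ), ∀ v ∈ Wd d k, v ᵥ* Z = 0 := by
    intro k
    induction k with
    | zero =>
      intro v hv
      funext b
      change ∑ a, v a * Z a b = 0
      refine Finset.sum_eq_zero fun a _ => ?_
      by_cases ha : d a = 0
      · rw [uni a ha]
        by_cases hb : d b = 0
        · rw [ori b hb, mul_zero]
        · rw [hZ o b (by omega), mul_zero]
      · rw [hv a ha, zero_mul]
    | succ k ih =>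
      intro v hv
      have h1 := Wd_gen hNB dgo gen hv
      clear hv
      induction h1 using Submodule.span_induction with
      | mem v hv =>
        obtain ⟨v₁, hv₁, i, rfl⟩ := hv
        rw [Matrix.vecMul_vecMul, ← com, ← Matrix.vecMul_vecMul, ih v₁ hv₁, Matrix.zero_vecMul]
      | zero => exact Matrix.zero_vecMul _
      | add v v' _ _ h3 h4 => rw [Matrix.add_vecMul, h3, h4, add_zero]
      | smul a v _ h3 => rw [Matrix.smul_vecMul, h3, smul_zero]
  ext b b'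
  have h2 := key (d b) (Pi.single b 1) fun c hc => by
    rw [Pi.single_eq_of_ne]
    rintro rfl
    exact hc rfl
  have h3 := congrFun h2 b'
  rw [Matrix.single_one_vecMul] at h3
  exact h3

/-- the elements with trivial action on the generators are small -/
theorem Ad.small (H : Fun d o N NB C P P') {y : R → I → ℂ} {Y : Matrix B B ℂ} {V : R → Matrix B B ℂ}
    (h : Ad T d o C N NB 0 y Y V) : Y ∈ Ge d 2 := by
  have hcom : ∀ j, pr d 0 Y * NB j = NB j * pr d 0 Y := by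
    intro j
    have h1 := com_pr H.hNB h.low h.com (Pi.single j 1)
    rw [nbv_single, Matrix.vecMul_zero, nbv_zero, add_zero] at h1
    exact sub_eq_zero.1 h1
  have h0 : pr d 0 Y = 0 := by
    refine Wd_all H.hNB H.dgo H.uni H.gen (pr_Gr 0 Y) (fun b hb => ?_) hcom
    rw [pr_apply]
    split_ifs
    · exact h.ori b hb
    · rfl
  have h1 := sub_pr0 h.low
  rw [h0, sub_zero] at h1
  have h2 : pr d 1 Y = 0 := by
    ext b b'
    rw [pr_apply]
    split_ifs with h3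
    · exact h.one b b' h3
    · rfl
  have h3 := sub_pr0 h1
  rw [zero_add, h2, sub_zero] at h3
  exact h3

end gen

variable {g : ℕ} {A : AbVar g} {B R : Type} [Fintype B] [DecidableEq B] [Fintype R] [DecidableEq R]
  {d : B → ℕ} {o : B} {N : Fin (2 * g) → Matrix B B ℂ} {C : Matrix B B ℂ} {NB : Fin (2 * g) → Matrix B B ℂ}
  {T : Set (Matrix (B ⊕ (B × R)) (B ⊕ (B × R)) ℂ)} {u e : R → Fin g → ℂ}

/-- the distinguished element -/
theorem exists_Dat (H : Fun d o N NB C (PA A) (PA A)⁻¹) {l : Empty → ℂ} (G : Good A u e l (gC A T d o C N NB)) :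
    ∃ X y Y V h, Ad T d o C N NB X y Y V ∧ Dat d o NB (pr d 0 Y) X h := by
  obtain ⟨ξ, hξ, ζ, hc, h1, hs, hcen⟩ := G.exists_Z
  obtain ⟨M, hM⟩ := G.hodge hcen
  obtain ⟨_, Y, V, hA⟩ := hξ
  have hX : (cb ξ).1 = (((ξ.2.2.1 / 2 : ℚ)) : ℂ) • (1 : Matrix (Fin (2 * g)) (Fin (2 * g)) ℂ) + mt ζ := by
    ext i j
    change ((ξ.1 (Pi.single i 1) j : ℚ) : ℂ) = _
    rw [h1, Matrix.add_apply, Matrix.smul_apply, smul_eq_mul]
    change (((ξ.2.2.1 / 2) * (Pi.single i 1 : Fin (2 * g) → ℚ) j + ζ (Pi.single i 1) j : ℚ) : ℂ) =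
      (((ξ.2.2.1 / 2 : ℚ)) : ℂ) * (1 : Matrix (Fin (2 * g)) (Fin (2 * g)) ℂ) i j + ((ζ (Pi.single i 1) j : ℚ) : ℂ)
    by_cases hij : i = j
    · subst hij
      rw [Pi.single_eq_same, Matrix.one_apply_eq, mul_one, mul_one, Rat.cast_add]
    · rw [Pi.single_eq_of_ne (Ne.symm hij), Matrix.one_apply_ne hij, mul_zero, mul_zero, zero_add, zero_add]
  refine ⟨_, _, Y, V, ((ξ.2.2.1 / 2 : ℚ) : ℝ), hA, ⟨H.hNB, pr_Gr 0 Y, com_pr H.hNB hA.low hA.com, fun b => ?_, H.dgo,
    H.uni, H.gen, fun t ht v hv => ?_, ?_⟩⟩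
  · rw [pr_apply]
    split_ifs with hb
    · exact hA.ori b (by rw [hb, H.dgo])
    · rfl
  · refine eig_im hs hM (μ := t - ((ξ.2.2.1 / 2 : ℚ) : ℂ)) ?_ (v := v) ?_
    · rw [Complex.sub_re, Complex.ratCast_re]
      intro h
      exact ht (sub_eq_zero.1 h)
    · rw [hX, Matrix.vecMul_add, Matrix.vecMul_smul, Matrix.vecMul_one] at hv
      rw [sub_smul, ← hv]
      abel
  · have : ξ.2.2.1 / 2 ≠ 0 := div_ne_zero hc (by norm_num)
    exact_mod_cast this

variable {F : IntermediateField ℚ ℂ}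

/-- the elements with given logarithms -/
theorem exists_Ad {l : Empty → ℂ} (G : Good A u e l (gC A T d o C N NB)) (hF : Fld A F) (hu : ∀ r, u r ∈ Pt A F)
    (hind : ∀ (Q : R → (Fin g → ℂ) →ₗ[ℂ] (Fin g → ℂ)), (∀ r, ∀ w ∈ Lt A, Q r w ∈ Lt A) →
      ∑ r, Q r (u r) ∈ Lt A → ∀ r, Q r = 0) (y : R → Fin (2 * g) → ℂ) :
    ∃ Y V, Ad T d o C N NB 0 y Y V := by
  let W : Submodule ℂ (R × Fin (2 * g) → ℂ) :=
    { carrier := {y | ∃ Y V, Ad T d o C N NB 0 (fun r j => y (r, j)) Y V}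
      zero_mem' := ⟨0, 0, Ad.zero⟩
      add_mem' := by
        rintro y y' ⟨Y, V, h⟩ ⟨Y', V', h'⟩
        have h1 := h.add h'
        rw [add_zero] at h1
        exact ⟨_, _, h1⟩
      smul_mem' := by
        rintro a y ⟨Y, V, h⟩
        have h1 := h.smul a
        rw [smul_zero] at h1
        exact ⟨_, _, h1⟩ }
  have hW : (fun p : R × Fin (2 * g) => y p.1 p.2) ∈ W := by
    refine mem_of_comp W fun f => ?_
    have hN : ∀ (Q : R → (Fin g → ℂ) →ₗ[ℂ] (Fin g → ℂ)) (m : R → Matrix (Fin (2 * g)) (Fin (2 * g)) ℤ),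
        (∀ r j, Q r (A.lam j) = ∑ i, (m r j i : ℂ) • A.lam i) → ∑ r, Q r (u r) ∈ Lt A →
        ∀ i, ∑ r, ∑ j, y r j * (m r j i : ℂ) = 0 := by
      intro Q m hQ hs i
      have h1 : ∀ s, ∀ w ∈ Lt A, Q s w ∈ Lt A := fun s => AV.lt_stable fun j => by
        rw [hQ]
        refine (Lt A).sum_mem fun i _ => ?_
        rw [AV.int_smul]
        exact (Lt A).smul_mem _ (Submodule.subset_span ⟨i, rfl⟩)
      have h2 := hind Q h1 hs
      have h3 : ∀ s j i, m s j i = 0 := by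
        intro s j
        have h4 := hQ s j
        rw [h2 s, LinearMap.zero_apply] at h4
        have h5 := Fintype.linearIndependent_iff.1 A.lam.linearIndependent (fun i => ((m s j i : ℤ) : ℝ)) (by
          rw [h4]
          refine Finset.sum_congr rfl fun i _ => ?_
          funext k
          simp)
        intro i
        exact_mod_cast h5 i
      refine Finset.sum_eq_zero fun s _ => Finset.sum_eq_zero fun j _ => ?_
      rw [h3, Int.cast_zero, mul_zero]
    have h1 := mem_uA.1 (G.uA_mem hF hu hN f)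
    obtain ⟨_, Y, V, h2⟩ := h1
    have h3 : (cb ((0, fun r j => f (y r j), 0, 0) : GT (Fin (2 * g)) R Empty)).1 = 0 := by
      ext i j
      change (((0 : Module.End ℚ (Fin (2 * g) → ℚ)) (Pi.single i 1) j : ℚ) : ℂ) = 0
      exact Rat.cast_zero
    rw [h3] at h2
    exact ⟨Y, V, h2⟩
  exact hW

end Pool.Agent.X306.CV
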